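import Mathlib
import Pool.Agent.ETS.Far4

/-!
# E-T (MP_12a1af_nt), project T*: the factor `phi` as a real power of two
-/

open Finset

namespace Pool.Agent.Helper5.ETP

open Pool.Agent.ETS

variable {N : ℕ}

lemma sqrt_two_pow (k : ℕ) : Real.sqrt (2 ^ k) = (2 : ℝ) ^ ((k : ℝ) / 2) := by
  rw [Real.sqrt_eq_rpow, ← Real.rpow_natCast, ← Real.rpow_mul (by norm_num)]
  congr 1
  ring

/-- `phi` as a real power -/
lemma phi_eq (lay : ℕ → Lay N) (K K' i i' : ℕ) (h : (lay K).bot (i+1) ≤ K)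
    (h' : (lay K').bot (i'+1) ≤ K') :
    phi lay K K' i i' = (2 : ℝ) ^
      ((K' : ℝ) - (max ((lay K').bot (i'+1)) (min ((lay K).bot (i+1)) K') : ℕ)
        - ((K : ℝ) - (lay K).bot (i+1)) / 2 - ((K' : ℝ) - (lay K').bot (i'+1)) / 2) := by
  unfold phi
  set al := (lay K).bot (i+1) with hal
  set al' := (lay K').bot (i'+1) with hal'
  have hm : max al' (min al K') ≤ K' := by
    refine max_le h' (min_le_right _ _)
  rw [sqrt_two_pow, sqrt_two_pow]
  rw [← Real.rpow_natCast 2 (K' - max al' (min al K')), ← Real.rpow_natCast 2 ((K - al) + (K' - al')),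
    ← Real.rpow_sub (by norm_num), ← Real.rpow_add (by norm_num), ← Real.rpow_add (by norm_num)]
  congr 1
  push_cast [Nat.cast_sub hm, Nat.cast_sub h, Nat.cast_sub h']
  ring

/-- the case of two tops below `K'` -/
lemma phi_eq_of_le (lay : ℕ → Lay N) (K K' i i' : ℕ) (hK : K' ≤ K)
    (h : (lay K).bot (i+1) ≤ K')
    (h' : (lay K').bot (i'+1) ≤ K') :
    phi lay K K' i i' = (2 : ℝ) ^
      (-(((K : ℝ) - K') + |((lay K).bot (i+1) : ℝ) - (lay K').bot (i'+1)|) / 2) := by
  rw [phi_eq lay K K' i i' (h.trans hK) h']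
  congr 1
  rcases le_total ((lay K).bot (i+1)) ((lay K').bot (i'+1)) with h1 | h1
  · have e : max ((lay K').bot (i'+1)) (min ((lay K).bot (i+1)) K') = (lay K').bot (i'+1) := by
      rw [min_eq_left h, max_eq_left h1]
    rw [e]
    have h2 : ((lay K).bot (i+1) : ℝ) ≤ (lay K').bot (i'+1) := by exact_mod_cast h1
    rw [abs_of_nonpos (by linarith)]
    ring
  · have e : max ((lay K').bot (i'+1)) (min ((lay K).bot (i+1)) K') = (lay K).bot (i+1) := by
      rw [min_eq_left h, max_eq_right h1]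
    rw [e]
    have h2 : ((lay K').bot (i'+1) : ℝ) ≤ (lay K).bot (i+1) := by exact_mod_cast h1
    rw [abs_of_nonneg (by linarith)]
    ring

/-- the case of a cut region: the top of `i` is above `K'` -/
lemma phi_eq_of_cut (lay : ℕ → Lay N) (K K' i i' : ℕ)
    (h0 : K' ≤ (lay K).bot (i+1)) (h : (lay K).bot (i+1) ≤ K)
    (h' : (lay K').bot (i'+1) ≤ K') :
    phi lay K K' i i' = (2 : ℝ) ^
      (-((K : ℝ) - (lay K).bot (i+1)) / 2 - ((K' : ℝ) - (lay K').bot (i'+1)) / 2) := by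
  rw [phi_eq lay K K' i i' h h']
  congr 1
  have e : max ((lay K').bot (i'+1)) (min ((lay K).bot (i+1)) K') = K' := by
    rw [min_eq_right h0, max_eq_right h']
  rw [e]
  ring

lemma phi_nonneg (lay : ℕ → Lay N) (K K' i i' : ℕ) : 0 ≤ phi lay K K' i i' := by
  unfold phi; positivity

lemma phi_le_one (lay : ℕ → Lay N) (K K' i i' : ℕ) (hK : K' ≤ K) (h : (lay K).bot (i+1) ≤ K)
    (h' : (lay K').bot (i'+1) ≤ K') : phi lay K K' i i' ≤ 1 := by
  rcases le_total ((lay K).bot (i+1)) K' with h0 | h0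
  · rw [phi_eq_of_le lay K K' i i' hK h0 h']
    apply Real.rpow_le_one_of_one_le_of_nonpos (by norm_num)
    have h1 : (K' : ℝ) ≤ K := by exact_mod_cast hK
    have h2 := abs_nonneg (((lay K).bot (i+1) : ℝ) - (lay K').bot (i'+1))
    linarith
  · rw [phi_eq_of_cut lay K K' i i' h0 h h']
    apply Real.rpow_le_one_of_one_le_of_nonpos (by norm_num)
    have h1 : ((lay K).bot (i+1) : ℝ) ≤ K := by exact_mod_cast h
    have h2 : ((lay K').bot (i'+1) : ℝ) ≤ K' := by exact_mod_cast h'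
    linarith

end Pool.Agent.Helper5.ETP
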