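import Mathlib
import Pool.Agent.ETS.Far4

/-!
# E-T (MP_12a1af_nt), project T*: what `Cons` says about the parts below the tops

`lo A i a κ₁ κ₂ b` is the part of the element below the top of region `i`.
-/

open Finset

namespace Pool.Agent.Helper5.ETP

open Pool.Agent.ETS

variable {N : ℕ}

/-- the part of an element below the top of region `i` -/
def lo (A : Lay N) (i a κ₁ κ₂ : ℕ) (b : Fin N × Fin N) : ℕ :=
  a + 2 ^ A.bot (i-1) * ((A.c (i-1) b.1 + κ₁) % 2 ^ A.len (i-1)) +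
      2 ^ A.bot i * ((A.c i b.2 + κ₂) % 2 ^ A.len i)

/-- residues of contents are distinct -/
def ContInj (A : Lay N) (j : ℕ) : Prop :=
  ∀ v ∈ A.V j, ∀ w ∈ A.V j, A.c j v ≡ A.c j w [MOD 2 ^ A.len j] → v = w

lemma cons_iff {A A' : Lay N} {K K' i i' n a κ₁ κ₂ a' κ₁' κ₂' : ℕ} {b b' : Fin N × Fin N} :
    Cons A A' K K' i i' n a κ₁ κ₂ a' κ₁' κ₂' b b' ↔
    ∃ u u', u < 2 ^ (K - A.bot (i+1)) ∧ u' < 2 ^ (K' - A'.bot (i'+1)) ∧
      (2 ^ K + (lo A i a κ₁ κ₂ b + 2 ^ A.bot (i+1) * u)) +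
      (2 ^ K' + (lo A' i' a' κ₁' κ₂' b' + 2 ^ A'.bot (i'+1) * u')) = n := by
  rfl

lemma lo_lt {A : Lay N} (hb : Monotone A.bot) {i a κ₁ κ₂ : ℕ} (hi : 1 ≤ i)
    (ha : a < 2 ^ A.bot (i-1)) (b : Fin N × Fin N) : lo A i a κ₁ κ₂ b < 2 ^ A.bot (i+1) := by
  unfold lo
  have e1 : A.bot (i-1) ≤ A.bot i := hb (by omega)
  have e2 : A.bot i ≤ A.bot (i+1) := hb (by omega)
  have hl1 : A.len (i-1) = A.bot i - A.bot (i-1) := by
    unfold Lay.len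
    have : i - 1 + 1 = i := by omega
    rw [this]
  have hl2 : A.len i = A.bot (i+1) - A.bot i := rfl
  have m1 : (A.c (i-1) b.1 + κ₁) % 2 ^ A.len (i-1) < 2 ^ A.len (i-1) := Nat.mod_lt _ (by positivity)
  have m2 : (A.c i b.2 + κ₂) % 2 ^ A.len i < 2 ^ A.len i := Nat.mod_lt _ (by positivity)
  have p1 : 2 ^ A.bot i = 2 ^ A.bot (i-1) * 2 ^ A.len (i-1) := by
    rw [← pow_add, hl1]; congr 1; omega
  have p2 : 2 ^ A.bot (i+1) = 2 ^ A.bot i * 2 ^ A.len i := by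
    rw [← pow_add, hl2]; congr 1; omega
  have h1 : a + 2 ^ A.bot (i-1) * ((A.c (i-1) b.1 + κ₁) % 2 ^ A.len (i-1)) < 2 ^ A.bot i := by
    rw [p1]
    calc a + 2 ^ A.bot (i-1) * ((A.c (i-1) b.1 + κ₁) % 2 ^ A.len (i-1))
        < 2 ^ A.bot (i-1) * 1 + 2 ^ A.bot (i-1) * ((A.c (i-1) b.1 + κ₁) % 2 ^ A.len (i-1)) := by
          omega
      _ = 2 ^ A.bot (i-1) * (1 + (A.c (i-1) b.1 + κ₁) % 2 ^ A.len (i-1)) := by ring
      _ ≤ 2 ^ A.bot (i-1) * 2 ^ A.len (i-1) := Nat.mul_le_mul_left _ (by omega)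
  rw [p2]
  calc a + 2 ^ A.bot (i-1) * ((A.c (i-1) b.1 + κ₁) % 2 ^ A.len (i-1)) +
        2 ^ A.bot i * ((A.c i b.2 + κ₂) % 2 ^ A.len i)
      < 2 ^ A.bot i * 1 + 2 ^ A.bot i * ((A.c i b.2 + κ₂) % 2 ^ A.len i) := by omega
    _ = 2 ^ A.bot i * (1 + (A.c i b.2 + κ₂) % 2 ^ A.len i) := by ring
    _ ≤ 2 ^ A.bot i * 2 ^ A.len i := Nat.mul_le_mul_left _ (by omega)

/-- the part below the top determines the block of variables -/
lemma lo_inj {A : Lay N} (hb : Monotone A.bot) {i a κ₁ κ₂ : ℕ} (hi : 1 ≤ i)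
    (_ha : a < 2 ^ A.bot (i-1)) (h1 : ContInj A (i-1)) (h2 : ContInj A i)
    {b b₂ : Fin N × Fin N} (hb1 : b.1 ∈ A.V (i-1)) (hb2 : b.2 ∈ A.V i)
    (hc1 : b₂.1 ∈ A.V (i-1)) (hc2 : b₂.2 ∈ A.V i)
    (h : lo A i a κ₁ κ₂ b = lo A i a κ₁ κ₂ b₂) : b = b₂ := by
  unfold lo at h
  have e1 : A.bot (i-1) ≤ A.bot i := hb (by omega)
  have hl1 : A.len (i-1) = A.bot i - A.bot (i-1) := by
    unfold Lay.len
    have : i - 1 + 1 = i := by omega
    rw [this]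
  have m1 : (A.c (i-1) b.1 + κ₁) % 2 ^ A.len (i-1) < 2 ^ A.len (i-1) := Nat.mod_lt _ (by positivity)
  have m1' : (A.c (i-1) b₂.1 + κ₁) % 2 ^ A.len (i-1) < 2 ^ A.len (i-1) :=
    Nat.mod_lt _ (by positivity)
  set D := (A.c (i-1) b.1 + κ₁) % 2 ^ A.len (i-1) with hD
  set D' := (A.c (i-1) b₂.1 + κ₁) % 2 ^ A.len (i-1) with hD'
  set E := (A.c i b.2 + κ₂) % 2 ^ A.len i with hE
  set E' := (A.c i b₂.2 + κ₂) % 2 ^ A.len i with hE'
  have p1 : 2 ^ A.bot i = 2 ^ A.bot (i-1) * 2 ^ A.len (i-1) := by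
    rw [← pow_add, hl1]; congr 1; omega
  have h3 : 2 ^ A.bot (i-1) * (D + 2 ^ A.len (i-1) * E) =
      2 ^ A.bot (i-1) * (D' + 2 ^ A.len (i-1) * E') := by
    rw [p1] at h
    nlinarith [h]
  have h4 : D + 2 ^ A.len (i-1) * E = D' + 2 ^ A.len (i-1) * E' :=
    Nat.eq_of_mul_eq_mul_left (by positivity) h3
  have h5 : E = E' := by
    have := congrArg (· / 2 ^ A.len (i-1)) h4
    simp only [Nat.add_mul_div_left _ _ (show 0 < 2 ^ A.len (i-1) by positivity),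
      Nat.div_eq_of_lt m1, Nat.div_eq_of_lt m1', zero_add] at this
    exact this
  have h6 : D = D' := by rw [h5] at h4; omega
  have f1 : A.c (i-1) b.1 ≡ A.c (i-1) b₂.1 [MOD 2 ^ A.len (i-1)] :=
    Nat.ModEq.add_right_cancel' κ₁ h6
  have f2 : A.c i b.2 ≡ A.c i b₂.2 [MOD 2 ^ A.len i] := Nat.ModEq.add_right_cancel' κ₂ h5
  exact Prod.ext (h1 _ hb1 _ hc1 f1) (h2 _ hb2 _ hc2 f2)

/-- (E1): the digits below both tops -/
lemma cons_modEq {A A' : Lay N} {K K' i i' n a κ₁ κ₂ a' κ₁' κ₂' : ℕ} {b b' : Fin N × Fin N}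
    (h : Cons A A' K K' i i' n a κ₁ κ₂ a' κ₁' κ₂' b b') {μ : ℕ} (h1 : μ ≤ A.bot (i+1))
    (h2 : μ ≤ A'.bot (i'+1)) (h3 : μ ≤ K) (h4 : μ ≤ K') :
    lo A i a κ₁ κ₂ b + lo A' i' a' κ₁' κ₂' b' ≡ n [MOD 2 ^ μ] := by
  obtain ⟨u, u', _, _, h⟩ := cons_iff.mp h
  rw [← h]
  have g1 : 2 ^ K ≡ 0 [MOD 2 ^ μ] := Nat.modEq_zero_iff_dvd.mpr (pow_dvd_pow 2 h3)
  have g2 : 2 ^ K' ≡ 0 [MOD 2 ^ μ] := Nat.modEq_zero_iff_dvd.mpr (pow_dvd_pow 2 h4)
  have g3 : 2 ^ A.bot (i+1) * u ≡ 0 [MOD 2 ^ μ] :=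
    Nat.modEq_zero_iff_dvd.mpr (Dvd.dvd.mul_right (pow_dvd_pow 2 h1) _)
  have g4 : 2 ^ A'.bot (i'+1) * u' ≡ 0 [MOD 2 ^ μ] :=
    Nat.modEq_zero_iff_dvd.mpr (Dvd.dvd.mul_right (pow_dvd_pow 2 h2) _)
  have g5 := (g1.add ((Nat.ModEq.refl (lo A i a κ₁ κ₂ b)).add g3)).add
    (g2.add ((Nat.ModEq.refl (lo A' i' a' κ₁' κ₂' b')).add g4))
  simp only [zero_add, add_zero] at g5
  exact g5.symm

/-- (E2): the cut -/
lemma cons_cut {A A' : Lay N} {K K' i i' n a κ₁ κ₂ a' κ₁' κ₂' : ℕ} {b b' : Fin N × Fin N}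
    (hb' : Monotone A'.bot) (hi' : 1 ≤ i') (ha' : a' < 2 ^ A'.bot (i'-1))
    (htop' : A'.bot (i'+1) ≤ K')
    (h : Cons A A' K K' i i' n a κ₁ κ₂ a' κ₁' κ₂' b b') (h3 : A.bot (i+1) ≤ K) :
    ∃ w, 2 ^ K' ≤ w ∧ w < 2 ^ (K'+1) ∧ lo A i a κ₁ κ₂ b + w ≡ n [MOD 2 ^ A.bot (i+1)] := by
  obtain ⟨u, u', hu, hu', h⟩ := cons_iff.mp h
  have hlt := lo_lt (κ₁ := κ₁') (κ₂ := κ₂') hb' hi' ha' b'
  refine ⟨2 ^ K' + (lo A' i' a' κ₁' κ₂' b' + 2 ^ A'.bot (i'+1) * u'), by omega, ?_, ?_⟩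
  · have h6 : lo A' i' a' κ₁' κ₂' b' + 2 ^ A'.bot (i'+1) * u' < 2 ^ K' := by
      have p : 2 ^ K' = 2 ^ A'.bot (i'+1) * 2 ^ (K' - A'.bot (i'+1)) := by
        rw [← pow_add]; congr 1; omega
      rw [p]
      calc lo A' i' a' κ₁' κ₂' b' + 2 ^ A'.bot (i'+1) * u'
          < 2 ^ A'.bot (i'+1) * 1 + 2 ^ A'.bot (i'+1) * u' := by omega
        _ = 2 ^ A'.bot (i'+1) * (1 + u') := by ring
        _ ≤ _ := Nat.mul_le_mul_left _ (by omega)
    rw [pow_succ]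
    omega
  · rw [← h]
    have g1 : 2 ^ K ≡ 0 [MOD 2 ^ A.bot (i+1)] := Nat.modEq_zero_iff_dvd.mpr (pow_dvd_pow 2 h3)
    have g3 : 2 ^ A.bot (i+1) * u ≡ 0 [MOD 2 ^ A.bot (i+1)] :=
      Nat.modEq_zero_iff_dvd.mpr (Dvd.intro _ rfl)
    have g5 := (g1.add ((Nat.ModEq.refl (lo A i a κ₁ κ₂ b)).add g3)).add
      (Nat.ModEq.refl (2 ^ K' + (lo A' i' a' κ₁' κ₂' b' + 2 ^ A'.bot (i'+1) * u')))
    simp only [zero_add, add_zero] at g5
    exact g5.symm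

/-- a number in a cyclic window of length `2 ^ k` has at most two values of `s / 2 ^ k` -/
lemma div_mem_of_window {k al s w n : ℕ} (hk : k ≤ al) (hs : s < 2 ^ al) (hw : 2 ^ k ≤ w)
    (hw' : w < 2 ^ (k+1)) (h : s + w ≡ n [MOD 2 ^ al]) :
    s / 2 ^ k = ((n + 2 ^ al - 2 ^ k) % 2 ^ al) / 2 ^ k ∨
    s / 2 ^ k = (((n + 2 ^ al - 2 ^ k) % 2 ^ al) / 2 ^ k + 2 ^ (al - k) - 1) % 2 ^ (al - k) := by
  have hkal : 2 ^ k ≤ 2 ^ al := Nat.pow_le_pow_right (by norm_num) hk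
  have hp : 2 ^ al = 2 ^ k * 2 ^ (al - k) := by rw [← pow_add]; congr 1; omega
  have hQpos : 0 < 2 ^ (al - k) := by positivity
  generalize 2 ^ (al - k) = Q at hp hQpos ⊢
  set m := n + 2 ^ al - 2 ^ k with hm
  obtain ⟨w0, rfl⟩ := Nat.exists_eq_add_of_le hw
  have hw0 : w0 < 2 ^ k := by rw [pow_succ] at hw'; omega
  -- s + w0 ≡ m
  have h1 : s + w0 ≡ m [MOD 2 ^ al] := by
    have h2 : s + w0 + 2 ^ k ≡ m + 2 ^ k [MOD 2 ^ al] := by
      have e : m + 2 ^ k = n + 2 ^ al := by omega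
      rw [e]
      have e2 : s + w0 + 2 ^ k = s + (2 ^ k + w0) := by ring
      rw [e2]
      exact h.trans (by simp [Nat.ModEq])
    exact Nat.ModEq.add_right_cancel' _ h2
  set v := m % 2 ^ al with hv
  have hvlt : v < 2 ^ al := Nat.mod_lt _ (by positivity)
  have h3 : s + w0 ≡ v [MOD 2 ^ al] := h1.trans (Nat.mod_modEq _ _).symm
  have hqr : 2 ^ k * (v / 2 ^ k) + v % 2 ^ k = v := Nat.div_add_mod _ _
  have hrlt : v % 2 ^ k < 2 ^ k := Nat.mod_lt _ (by positivity)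
  have hqlt : v / 2 ^ k < Q := by
    rw [Nat.div_lt_iff_lt_mul (by positivity), mul_comm, ← hp]; exact hvlt
  have hrv : v % 2 ^ k ≤ v := Nat.mod_le _ _
  have hqz : v < 2 ^ k → v / 2 ^ k = 0 := fun h => Nat.div_eq_of_lt h
  generalize v / 2 ^ k = q at hqr hqlt hqz ⊢
  generalize v % 2 ^ k = r at hqr hrlt hrv
  -- the two cases
  have hcase : s + w0 = v ∨ s + w0 = v + 2 ^ al := by
    have h4 : s + w0 < 2 * 2 ^ al := by omega
    have h5 : (s + w0) % 2 ^ al = v := by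
      have := h3
      unfold Nat.ModEq at this
      rwa [Nat.mod_eq_of_lt hvlt] at this
    rcases Nat.lt_or_ge (s + w0) (2 ^ al) with h6 | h6
    · left; rwa [Nat.mod_eq_of_lt h6] at h5
    · right
      rw [Nat.mod_eq_sub_mod h6, Nat.mod_eq_of_lt (by omega)] at h5
      omega
  rcases hcase with hc | hc
  · rcases Nat.lt_or_ge r w0 with h6 | h6
    · right
      -- q ≥ 1
      have hq1 : 1 ≤ q := by
        by_contra hq0
        have : q = 0 := by omega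
        rw [this] at hqr
        omega
      have h7 : s = 2 ^ k * (q - 1) + (2 ^ k + r - w0) := by
        have : 2 ^ k * q = 2 ^ k * (q - 1) + 2 ^ k := by
          conv_lhs => rw [show q = (q - 1) + 1 by omega]
          ring
        omega
      have h8 : s / 2 ^ k = q - 1 := by
        rw [h7, Nat.mul_add_div (by positivity), Nat.div_eq_of_lt (by omega)]; rfl
      rw [h8]
      have h9 : q + Q - 1 = (q - 1) + Q := by omega
      have h9' : q - 1 < Q := by omega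
      rw [h9, Nat.add_mod_right, Nat.mod_eq_of_lt h9']
    · left
      have h7 : s = 2 ^ k * q + (r - w0) := by omega
      rw [h7, Nat.mul_add_div (by positivity), Nat.div_eq_of_lt (by omega)]; rfl
  · -- wrap around: then q = 0 and the value is the last one
    right
    have hq0 : q = 0 ∧ r < w0 := by
      have h10 : v < w0 := by omega
      exact ⟨hqz (by omega), by omega⟩
    obtain ⟨hq0, hrw⟩ := hq0
    rw [hq0] at hqr ⊢
    have hvr : v = r := by omega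
    have h7 : s = 2 ^ k * (Q - 1) + (2 ^ k + r - w0) := by
      have : 2 ^ k * Q = 2 ^ k * (Q - 1) + 2 ^ k := by
        conv_lhs => rw [show Q = (Q - 1) + 1 by omega]
        ring
      omega
    have h8 : s / 2 ^ k = Q - 1 := by
      rw [h7, Nat.mul_add_div (by positivity), Nat.div_eq_of_lt (by omega)]; rfl
    have h9' : Q - 1 < Q := by omega
    rw [h8, zero_add, Nat.mod_eq_of_lt h9']

section counts

variable {lay : ℕ → Lay N} {K K' i i' n a κ₁ κ₂ a' κ₁' κ₂' : ℕ} {co co' : Fin N}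

lemma mem_ConsSet {bb : (Fin N × Fin N) × (Fin N × Fin N)} :
    bb ∈ ConsSet lay K K' i i' n a κ₁ κ₂ a' κ₁' κ₂' co co' ↔
    ((bb.1.1 ∈ (lay K).V (i-1) ∧ bb.1.2 ∈ (lay K).V i) ∧
      (bb.2.1 ∈ (lay K').V (i'-1) ∧ bb.2.2 ∈ (lay K').V i')) ∧
    (lay K).core (i-1) bb.1.1 = co ∧ (lay K').core (i'-1) bb.2.1 = co' ∧
      Cons (lay K) (lay K') K K' i i' n a κ₁ κ₂ a' κ₁' κ₂' bb.1 bb.2 := by
  unfold ConsSet
  simp only [mem_filter, mem_product]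

/-- if the top of `i` is not above the top of `i'` the block of `a` is determined by that
of `a'` -/
lemma fst_eq_of_snd_eq (hb : Monotone (lay K).bot) (hi : 1 ≤ i)
    (ha : a < 2 ^ (lay K).bot (i-1))
    (h1 : ContInj (lay K) (i-1)) (h2 : ContInj (lay K) i)
    (hal : (lay K).bot (i+1) ≤ (lay K').bot (i'+1)) (hK : (lay K).bot (i+1) ≤ K)
    (hK' : (lay K).bot (i+1) ≤ K')
    {bb cc : (Fin N × Fin N) × (Fin N × Fin N)}
    (hbb : bb ∈ ConsSet lay K K' i i' n a κ₁ κ₂ a' κ₁' κ₂' co co')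
    (hcc : cc ∈ ConsSet lay K K' i i' n a κ₁ κ₂ a' κ₁' κ₂' co co') (h : bb.2 = cc.2) :
    bb = cc := by
  rw [mem_ConsSet] at hbb hcc
  obtain ⟨⟨⟨b1, b2⟩, -⟩, -, -, hC⟩ := hbb
  obtain ⟨⟨⟨c1, c2⟩, -⟩, -, -, hC'⟩ := hcc
  have e1 := cons_modEq hC le_rfl hal hK hK'
  have e2 := cons_modEq hC' le_rfl hal hK hK'
  rw [h] at e1
  have e3 := Nat.ModEq.add_right_cancel' _ (e1.trans e2.symm)
  have e4 := e3.eq_of_lt_of_lt (lo_lt hb hi ha _) (lo_lt hb hi ha _)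
  exact Prod.ext (lo_inj hb hi ha h1 h2 b1 b2 c1 c2 e4) h

/-- if the top of `i'` is not above the top of `i` the block of `a'` is determined by that
of `a` -/
lemma snd_eq_of_fst_eq (hb' : Monotone (lay K').bot) (hi' : 1 ≤ i')
    (ha' : a' < 2 ^ (lay K').bot (i'-1))
    (h1 : ContInj (lay K') (i'-1)) (h2 : ContInj (lay K') i')
    (hal : (lay K').bot (i'+1) ≤ (lay K).bot (i+1)) (hK : (lay K').bot (i'+1) ≤ K)
    (hK' : (lay K').bot (i'+1) ≤ K')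
    {bb cc : (Fin N × Fin N) × (Fin N × Fin N)}
    (hbb : bb ∈ ConsSet lay K K' i i' n a κ₁ κ₂ a' κ₁' κ₂' co co')
    (hcc : cc ∈ ConsSet lay K K' i i' n a κ₁ κ₂ a' κ₁' κ₂' co co') (h : bb.1 = cc.1) :
    bb = cc := by
  rw [mem_ConsSet] at hbb hcc
  obtain ⟨⟨-, ⟨b1, b2⟩⟩, -, -, hC⟩ := hbb
  obtain ⟨⟨-, ⟨c1, c2⟩⟩, -, -, hC'⟩ := hcc
  have e1 := cons_modEq hC hal le_rfl hK hK'
  have e2 := cons_modEq hC' hal le_rfl hK hK'
  rw [h] at e1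
  have e3 := Nat.ModEq.add_left_cancel' _ (e1.trans e2.symm)
  have e4 := e3.eq_of_lt_of_lt (lo_lt hb' hi' ha' _) (lo_lt hb' hi' ha' _)
  exact Prod.ext h (lo_inj hb' hi' ha' h1 h2 b1 b2 c1 c2 e4)

open Classical in
/-- trivial bound, top of `i` not above the top of `i'` -/
lemma card_le_right (hb : Monotone (lay K).bot) (hi : 1 ≤ i)
    (ha : a < 2 ^ (lay K).bot (i-1))
    (h1 : ContInj (lay K) (i-1)) (h2 : ContInj (lay K) i)
    (hal : (lay K).bot (i+1) ≤ (lay K').bot (i'+1)) (hK : (lay K).bot (i+1) ≤ K)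
    (hK' : (lay K).bot (i+1) ≤ K')
    (S : Finset (Fin N × Fin N))
    (hS : ∀ bb ∈ ConsSet lay K K' i i' n a κ₁ κ₂ a' κ₁' κ₂' co co', bb.2 ∈ S) :
    (ConsSet lay K K' i i' n a κ₁ κ₂ a' κ₁' κ₂' co co').card ≤ S.card := by
  refine Finset.card_le_card_of_injOn (fun bb => bb.2) (fun bb hbb => hS bb hbb) ?_
  intro bb hbb cc hcc h
  exact fst_eq_of_snd_eq hb hi ha h1 h2 hal hK hK' hbb hcc h

open Classical in
/-- trivial bound, top of `i'` not above the top of `i` -/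
lemma card_le_left (hb' : Monotone (lay K').bot) (hi' : 1 ≤ i')
    (ha' : a' < 2 ^ (lay K').bot (i'-1))
    (h1 : ContInj (lay K') (i'-1)) (h2 : ContInj (lay K') i')
    (hal : (lay K').bot (i'+1) ≤ (lay K).bot (i+1)) (hK : (lay K').bot (i'+1) ≤ K)
    (hK' : (lay K').bot (i'+1) ≤ K')
    (S : Finset (Fin N × Fin N))
    (hS : ∀ bb ∈ ConsSet lay K K' i i' n a κ₁ κ₂ a' κ₁' κ₂' co co', bb.1 ∈ S) :
    (ConsSet lay K K' i i' n a κ₁ κ₂ a' κ₁' κ₂' co co').card ≤ S.card := by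
  refine Finset.card_le_card_of_injOn (fun bb => bb.1) (fun bb hbb => hS bb hbb) ?_
  intro bb hbb cc hcc h
  exact snd_eq_of_fst_eq hb' hi' ha' h1 h2 hal hK hK' hbb hcc h

end counts

end Pool.Agent.Helper5.ETP
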