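import Mathlib
import Pool.Agent.ETS.Zone
import Pool.Agent.Helper5.ETP.Extract

/-!
# E-T (MP_12a1af_nt), project T*: basic counts for pairs of zones
-/

open Finset

namespace Pool.Agent.Helper5.ETP

open Pool.Agent.ETS

/-- pairs of numbers with prescribed sum modulo `2 ^ m` -/
def pmod (m n : ℕ) (S S' : Finset ℕ) : Finset (ℕ × ℕ) :=
  (S ×ˢ S').filter (fun s => s.1 + s.2 ≡ n [MOD 2 ^ m])

lemma mem_pmod {m n : ℕ} {S S' : Finset ℕ} {s : ℕ × ℕ} :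
    s ∈ pmod m n S S' ↔ (s.1 ∈ S ∧ s.2 ∈ S') ∧ s.1 + s.2 ≡ n [MOD 2 ^ m] := by
  unfold pmod; rw [mem_filter, mem_product]

lemma pmod_swap (m n : ℕ) (S S' : Finset ℕ) : (pmod m n S S').card = (pmod m n S' S).card := by
  refine Finset.card_bij (fun s _ => (s.2, s.1)) ?_ ?_ ?_
  · intro s hs
    rw [mem_pmod] at hs ⊢
    exact ⟨⟨hs.1.2, hs.1.1⟩, by rw [add_comm]; exact hs.2⟩
  · intro s _ t _ h
    simp only [Prod.mk.injEq] at h
    exact Prod.ext h.2 h.1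
  · intro s hs
    refine ⟨(s.2, s.1), ?_, rfl⟩
    rw [mem_pmod] at hs ⊢
    exact ⟨⟨hs.1.2, hs.1.1⟩, by rw [add_comm]; exact hs.2⟩

lemma pmod_mono {m n : ℕ} {S S' T T' : Finset ℕ} (h : S ⊆ T) (h' : S' ⊆ T') :
    (pmod m n S S').card ≤ (pmod m n T T').card := by
  refine card_le_card ?_
  intro s hs
  rw [mem_pmod] at hs ⊢
  exact ⟨⟨h hs.1.1, h' hs.1.2⟩, hs.2⟩

/-- values of a zone are below its top -/
def Zone.Ok (Z : Zone) : Prop := ∀ s ∈ Z.S, s < 2 ^ Z.top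

/-- consistent pairs have a prescribed sum below both tops -/
lemma zcons_subset_pmod {K K' n : ℕ} {Z Z' : Zone} (hK : Z.top ≤ K) (hK' : Z'.top ≤ K') {m : ℕ}
    (hm : m ≤ Z.top) (hm' : m ≤ Z'.top) : zcons K K' n Z Z' ⊆ pmod m n Z.S Z'.S := by
  intro s hs
  rw [mem_pmod]
  exact ⟨(mem_zcons.mp hs).1, zcons_modEq hK hK' hs hm hm'⟩

lemma zcons_card_le_pmod {K K' n : ℕ} {Z Z' : Zone} (hK : Z.top ≤ K) (hK' : Z'.top ≤ K') {m : ℕ}
    (hm : m ≤ Z.top) (hm' : m ≤ Z'.top) : (zcons K K' n Z Z').card ≤ (pmod m n Z.S Z'.S).card :=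
  card_le_card (zcons_subset_pmod hK hK' hm hm')

/-- if the values of `S` are below `2 ^ m` the first member of a pair is determined by the
second one -/
lemma pmod_fst_inj {m n : ℕ} {S S' : Finset ℕ} (h : ∀ s ∈ S, s < 2 ^ m) :
    Set.InjOn (fun q : ℕ × ℕ => q.2) (pmod m n S S' : Set (ℕ × ℕ)) := by
  intro s hs t ht he
  rw [mem_coe, mem_pmod] at hs ht
  simp only at he
  have e1 := hs.2
  rw [he] at e1
  have e2 := Nat.ModEq.add_right_cancel' _ (e1.trans ht.2.symm)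
  exact Prod.ext (e2.eq_of_lt_of_lt (h _ hs.1.1) (h _ ht.1.1)) he

lemma pmod_card_le_right {m n : ℕ} {S S' : Finset ℕ} (h : ∀ s ∈ S, s < 2 ^ m) :
    (pmod m n S S').card ≤ S'.card :=
  Finset.card_le_card_of_injOn _ (fun s hs => (mem_pmod.mp hs).1.2) (pmod_fst_inj h)

lemma pmod_card_le_left {m n : ℕ} {S S' : Finset ℕ} (h : ∀ s ∈ S', s < 2 ^ m) :
    (pmod m n S S').card ≤ S.card := by
  rw [pmod_swap]; exact pmod_card_le_right h

/-- (TRIV), the top of `a` is not above the top of `a'` -/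
lemma zcons_le_right {K K' n : ℕ} {Z Z' : Zone} (hok : Zone.Ok Z) (hK : Z.top ≤ K)
    (hK' : Z'.top ≤ K') (h : Z.top ≤ Z'.top) : (zcons K K' n Z Z').card ≤ Z'.S.card :=
  (zcons_card_le_pmod hK hK' le_rfl h).trans (pmod_card_le_right hok)

/-- (TRIV), the top of `a'` is not above the top of `a` (the region of `a` may contain `K'`) -/
lemma zcons_le_left {K K' n : ℕ} {Z Z' : Zone} (hok : Zone.Ok Z') (hK : Z.top ≤ K)
    (hK' : Z'.top ≤ K') (h : Z'.top ≤ Z.top) : (zcons K K' n Z Z').card ≤ Z.S.card :=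
  (zcons_card_le_pmod hK hK' h le_rfl).trans (pmod_card_le_left hok)

/-- (TRIV) refined: only the values of `a` which occur are counted -/
lemma zcons_le_of_fst {K K' n : ℕ} {Z Z' : Zone} (hok : Zone.Ok Z') (hK : Z.top ≤ K)
    (hK' : Z'.top ≤ K') (h : Z'.top ≤ Z.top) (T : Finset ℕ)
    (hT : ∀ s ∈ zcons K K' n Z Z', s.1 ∈ T) : (zcons K K' n Z Z').card ≤ T.card := by
  refine Finset.card_le_card_of_injOn (fun s => s.1) (fun s hs => hT s hs) ?_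
  intro s hs t ht he
  simp only at he
  have h1 := zcons_subset_pmod hK hK' h le_rfl (mem_coe.mp hs)
  have h2 := zcons_subset_pmod hK hK' h le_rfl (mem_coe.mp ht)
  rw [mem_pmod] at h1 h2
  have e1 := h1.2
  rw [he] at e1
  have e2 := Nat.ModEq.add_left_cancel' _ (e1.trans h2.2.symm)
  exact Prod.ext he (e2.eq_of_lt_of_lt (hok _ h1.1.2) (hok _ h2.1.2))

/-- (E2), the cut: `s / 2 ^ K'` has at most two values -/
lemma zcons_cut {K K' n : ℕ} {Z Z' : Zone} (hok : Zone.Ok Z) (hok' : Zone.Ok Z') (hK : Z.top ≤ K)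
    (hK' : Z'.top ≤ K') (h : K' ≤ Z.top) {s : ℕ × ℕ} (hs : s ∈ zcons K K' n Z Z') :
    s.1 / 2 ^ K' = ((n + 2 ^ Z.top - 2 ^ K') % 2 ^ Z.top) / 2 ^ K' ∨
    s.1 / 2 ^ K' = (((n + 2 ^ Z.top - 2 ^ K') % 2 ^ Z.top) / 2 ^ K' + 2 ^ (Z.top - K') - 1) %
      2 ^ (Z.top - K') := by
  rw [mem_zcons] at hs
  obtain ⟨⟨h1, h2⟩, u, u', hu, hu', he⟩ := hs
  have h3 := hok _ h1
  have h4 := hok' _ h2
  refine div_mem_of_window (w := 2 ^ K' + (s.2 + 2 ^ Z'.top * u')) h h3 (Nat.le_add_right _ _) ?_ ?_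
  · have h6 : s.2 + 2 ^ Z'.top * u' < 2 ^ K' := by
      have p : 2 ^ K' = 2 ^ Z'.top * 2 ^ (K' - Z'.top) := by
        rw [← pow_add]; congr 1; omega
      rw [p]
      calc s.2 + 2 ^ Z'.top * u' < 2 ^ Z'.top * 1 + 2 ^ Z'.top * u' := by omega
        _ = 2 ^ Z'.top * (1 + u') := by ring
        _ ≤ _ := Nat.mul_le_mul_left _ (by omega)
    rw [pow_succ]; omega
  · rw [← he]
    have g1 : 2 ^ K ≡ 0 [MOD 2 ^ Z.top] := Nat.modEq_zero_iff_dvd.mpr (pow_dvd_pow 2 hK)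
    have g3 : 2 ^ Z.top * u ≡ 0 [MOD 2 ^ Z.top] := Nat.modEq_zero_iff_dvd.mpr (Dvd.intro _ rfl)
    have g5 := (g1.add ((Nat.ModEq.refl s.1).add g3)).add
      (Nat.ModEq.refl (2 ^ K' + (s.2 + 2 ^ Z'.top * u')))
    simp only [zero_add, add_zero] at g5
    exact g5.symm

/-! ### the zones of regions -/

lemma zreg_ok (C : Codes) (r : Reg) {a κ : ℕ} (hr : r.bot ≤ r.top C) (ha : a < 2 ^ r.bot) :
    Zone.Ok (zreg C r a κ) := by
  intro s hs
  unfold zreg at hs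
  simp only [mem_image] at hs
  obtain ⟨z, -, rfl⟩ := hs
  show _ < 2 ^ (r.top C)
  have p : 2 ^ r.top C = 2 ^ r.bot * 2 ^ (r.top C - r.bot) := by
    rw [← pow_add]; congr 1; omega
  have m : (r.c C z + κ) % 2 ^ (r.top C - r.bot) < 2 ^ (r.top C - r.bot) :=
    Nat.mod_lt _ (by positivity)
  rw [p]
  calc a + 2 ^ r.bot * ((r.c C z + κ) % 2 ^ (r.top C - r.bot))
      < 2 ^ r.bot * 1 + 2 ^ r.bot * ((r.c C z + κ) % 2 ^ (r.top C - r.bot)) := by omega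
    _ = 2 ^ r.bot * (1 + (r.c C z + κ) % 2 ^ (r.top C - r.bot)) := by ring
    _ ≤ _ := Nat.mul_le_mul_left _ (by omega)

lemma zRS_ok (C : Codes) {e b v a κ κ₂ : ℕ} (hv : b + C.W e ≤ v) (ha : a < 2 ^ b) :
    Zone.Ok (zRS C e b v a κ κ₂) := by
  intro s hs
  unfold zRS at hs
  simp only [mem_image] at hs
  obtain ⟨q, -, rfl⟩ := hs
  show _ < 2 ^ v
  have p : 2 ^ v = 2 ^ b * (2 ^ C.W e * 2 ^ (v - (b + C.W e))) := by
    rw [← pow_add, ← pow_add]; congr 1; omega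
  have m1 : ((Nat.unpair q).2 + κ) % 2 ^ C.W e < 2 ^ C.W e := Nat.mod_lt _ (by positivity)
  have m2 : (C.E (v - (b + C.W e)) (Nat.unpair q).1 + κ₂) % 2 ^ (v - (b + C.W e)) <
    2 ^ (v - (b + C.W e)) := Nat.mod_lt _ (by positivity)
  set A := ((Nat.unpair q).2 + κ) % 2 ^ C.W e
  set D := (C.E (v - (b + C.W e)) (Nat.unpair q).1 + κ₂) % 2 ^ (v - (b + C.W e))
  rw [p]
  have e1 : 2 ^ (b + C.W e) = 2 ^ b * 2 ^ C.W e := pow_add _ _ _
  rw [e1]
  calc a + 2 ^ b * A + 2 ^ b * 2 ^ C.W e * D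
      < 2 ^ b * 1 + 2 ^ b * A + 2 ^ b * 2 ^ C.W e * D := by omega
    _ = 2 ^ b * (1 + A + 2 ^ C.W e * D) := by ring
    _ ≤ 2 ^ b * (2 ^ C.W e * 1 + 2 ^ C.W e * D) := Nat.mul_le_mul_left _ (by omega)
    _ = 2 ^ b * (2 ^ C.W e * (1 + D)) := by ring
    _ ≤ _ := Nat.mul_le_mul_left _ (Nat.mul_le_mul_left _ (by omega))

lemma zreg_card_le (C : Codes) (r : Reg) (a κ : ℕ) : (zreg C r a κ).S.card ≤ (r.V C).card :=
  card_image_le

lemma zRS_card_le (C : Codes) (e b v a κ κ₂ : ℕ) :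
    (zRS C e b v a κ κ₂).S.card ≤ (C.Y (v - (b + C.W e))).card * (C.T e).card := by
  refine card_image_le.trans ?_
  rw [card_pairs]

/-- low digits of the values of a zone -/
def Zone.Low (Z : Zone) (be r₀ : ℕ) : Prop := ∀ s ∈ Z.S, s % 2 ^ be = r₀

lemma zreg_low (C : Codes) (r : Reg) {a κ : ℕ} (ha : a < 2 ^ r.bot) :
    Zone.Low (zreg C r a κ) r.bot a := by
  intro s hs
  unfold zreg at hs
  simp only [mem_image] at hs
  obtain ⟨z, -, rfl⟩ := hs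
  rw [Nat.add_mul_mod_self_left, Nat.mod_eq_of_lt ha]

lemma zRS_low (C : Codes) {e b v a κ κ₂ : ℕ} (ha : a < 2 ^ b) :
    Zone.Low (zRS C e b v a κ κ₂) b a := by
  intro s hs
  unfold zRS at hs
  simp only [mem_image] at hs
  obtain ⟨q, -, rfl⟩ := hs
  rw [pow_add, mul_assoc, add_assoc, ← mul_add, Nat.add_mul_mod_self_left, Nat.mod_eq_of_lt ha]

end Pool.Agent.Helper5.ETP
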