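import Mathlib
import Pool.Agent.ETS.PCode
import Pool.Agent.Helper5.ETP.ZBasic

/-!
# E-T (MP_12a1af_nt), project T*: P type zones against R type zones across a boundary
-/

open Finset

namespace Pool.Agent.Helper5.ETP

open Pool.Agent.ETS

/-! ### the family `QP` -/

open Classical in
/-- block digits `t < 2 ^ W` which occur together with a variable of length `l` -/
noncomputable def QP (X : ℕ → Finset ℕ) (P : ℕ → ℕ → ℕ) (W l q c : ℕ) : Finset ℕ :=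
  (range (2 ^ W)).filter (fun t => ∃ x ∈ X l, P l x + 2 ^ q * t ≡ c [MOD 2 ^ l])

lemma mem_QP {X : ℕ → Finset ℕ} {P : ℕ → ℕ → ℕ} {W l q c t : ℕ} :
    t ∈ QP X P W l q c ↔ t < 2 ^ W ∧ ∃ x ∈ X l, P l x + 2 ^ q * t ≡ c [MOD 2 ^ l] := by
  classical
  unfold QP
  rw [mem_filter, mem_range]

lemma two_pow_dvd_cancel {q l t s : ℕ} (h : 2 ^ q * t ≡ 2 ^ q * s [MOD 2 ^ l]) (hq : q ≤ l) :
    t ≡ s [MOD 2 ^ (l - q)] := by
  have e : 2 ^ l = 2 ^ q * 2 ^ (l - q) := by rw [← pow_add]; congr 1; omega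
  rw [e] at h
  exact Nat.ModEq.mul_left_cancel' (by positivity) h

/-- the Sidon property bounds the size of `QP` -/
lemma card_QP {X : ℕ → Finset ℕ} {P : ℕ → ℕ → ℕ} (hP : PCode X P) {W l q c w : ℕ}
    (hq : q + W ≤ l) (h2 : 2 * w = W) : (QP X P W l q c).card ≤ 2 ^ (w + 1) := by
  classical
  set Q := QP X P W l q c with hQ
  have hmem : ∀ t ∈ Q, t < 2 ^ W ∧ ∃ x ∈ X l, P l x + 2 ^ q * t ≡ c [MOD 2 ^ l] :=
    fun t ht => mem_QP.mp ht
  have hinj : Set.InjOn (fun p : ℕ × ℕ => p.1 + 2 ^ W - p.2) (Q.offDiag : Set (ℕ × ℕ)) := by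
    rintro ⟨t1, t2⟩ h ⟨t3, t4⟩ h' he
    rw [mem_coe, mem_offDiag] at h h'
    obtain ⟨h1, h2', h12⟩ := h
    obtain ⟨h3, h4, h34⟩ := h'
    simp only at he h1 h2' h12 h3 h4 h34
    obtain ⟨b1, x1, hx1, e1⟩ := hmem t1 h1
    obtain ⟨b2, x2, hx2, e2⟩ := hmem t2 h2'
    obtain ⟨b3, x3, hx3, e3⟩ := hmem t3 h3
    obtain ⟨b4, x4, hx4, e4⟩ := hmem t4 h4
    have hs : t1 + t4 = t3 + t2 := by omega
    have e5 : P l x1 + P l x4 + 2 ^ q * (t1 + t4) ≡ P l x3 + P l x2 + 2 ^ q * (t1 + t4)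
        [MOD 2 ^ l] := by
      have a1 : P l x1 + P l x4 + 2 ^ q * (t1 + t4) = (P l x1 + 2 ^ q * t1) + (P l x4 + 2 ^ q * t4) := by
        ring
      have a2 : P l x3 + P l x2 + 2 ^ q * (t1 + t4) = (P l x3 + 2 ^ q * t3) + (P l x2 + 2 ^ q * t2) := by
        rw [hs]; ring
      rw [a1, a2]
      exact (e1.add e4).trans (e3.add e2).symm
    have e6 := Nat.ModEq.add_right_cancel' _ e5
    have hW : 2 ^ W ≤ 2 ^ (l - q) := Nat.pow_le_pow_right (by norm_num) (by omega)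
    rcases hP.sid l x1 hx1 x4 hx4 x3 hx3 x2 hx2 e6 with ⟨h7, h8⟩ | ⟨h7, h8⟩
    · have e8 : 2 ^ q * t1 ≡ 2 ^ q * t3 [MOD 2 ^ l] := by
        rw [h7] at e1
        exact Nat.ModEq.add_left_cancel' _ (e1.trans e3.symm)
      have e9 := (two_pow_dvd_cancel e8 (by omega)).eq_of_lt_of_lt (lt_of_lt_of_le b1 hW)
        (lt_of_lt_of_le b3 hW)
      have e10 : t2 = t4 := by omega
      rw [e9, e10]
    · exfalso
      have e8 : 2 ^ q * t1 ≡ 2 ^ q * t2 [MOD 2 ^ l] := by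
        rw [h7] at e1
        exact Nat.ModEq.add_left_cancel' _ (e1.trans e2.symm)
      have e9 := (two_pow_dvd_cancel e8 (by omega)).eq_of_lt_of_lt (lt_of_lt_of_le b1 hW)
        (lt_of_lt_of_le b2 hW)
      exact h12 e9
  have hc : Q.offDiag.card ≤ (range (2 * 2 ^ W)).card := by
    refine Finset.card_le_card_of_injOn _ ?_ hinj
    rintro ⟨t1, t2⟩ h
    rw [mem_coe, mem_offDiag] at h
    have b1 := (hmem t1 h.1).1
    have b2 := (hmem t2 h.2.1).1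
    simp only [coe_range, Set.mem_Iio]
    omega
  rw [offDiag_card, card_range] at hc
  by_contra hcon
  push Not at hcon
  have hWw : 2 ^ W = 2 ^ w * 2 ^ w := by rw [← pow_add]; congr 1; omega
  have hw1 : 2 ^ (w + 1) = 2 * 2 ^ w := by rw [pow_succ]; ring
  rw [hw1] at hcon
  rw [hWw] at hc
  have hpos : 0 < 2 ^ w := by positivity
  generalize 2 ^ w = z at hcon hc hpos
  have h5 : 2 * z + 1 ≤ Q.card := hcon
  have h6 : Q.card * Q.card - Q.card = Q.card * (Q.card - 1) := by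
    rw [Nat.mul_sub, mul_one]
  rw [h6] at hc
  have h7 : (2 * z + 1) * (2 * z) ≤ Q.card * (Q.card - 1) := Nat.mul_le_mul h5 (by omega)
  nlinarith

/-- if the digits below the block determine the variable then `QP` is small -/
lemma card_QP_low {X : ℕ → Finset ℕ} {P : ℕ → ℕ → ℕ} (hP : PCode X P) {W l q c : ℕ}
    (hq : q + W ≤ l) : (QP X P W l q c).card ≤ 2 ^ ((l + 1) / 2 - q) + 1 := by
  classical
  set Q := QP X P W l q c with hQ
  rcases Q.eq_empty_or_nonempty with h0 | ⟨t0, ht0⟩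
  · rw [h0]; simp
  obtain ⟨b0, x0, hx0, e0⟩ := mem_QP.mp ht0
  have hx : ∀ t ∈ Q, ∃ x ∈ (X l).filter (fun x => x % 2 ^ (q + 2) = x0 % 2 ^ (q + 2)),
      P l x + 2 ^ q * t ≡ c [MOD 2 ^ l] := by
    intro t ht
    obtain ⟨b, x, hx, e⟩ := mem_QP.mp ht
    refine ⟨x, ?_, e⟩
    rw [mem_filter]
    refine ⟨hx, ?_⟩
    have e1 : P l x + 2 ^ q * t ≡ P l x0 + 2 ^ q * t0 [MOD 2 ^ q] :=
      (e.trans e0.symm).of_dvd (pow_dvd_pow 2 (by omega))
    have e2 : P l x ≡ P l x0 [MOD 2 ^ q] := by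
      have a1 : P l x + 2 ^ q * t ≡ P l x [MOD 2 ^ q] := by
        simp [Nat.ModEq]
      have a2 : P l x0 + 2 ^ q * t0 ≡ P l x0 [MOD 2 ^ q] := by
        simp [Nat.ModEq]
      exact a1.symm.trans (e1.trans a2)
    have e3 : P q x + P q x0 ≡ P q x0 + P q x0 [MOD 2 ^ q] := by
      refine Nat.ModEq.add_right _ ?_
      rw [← hP.res l q l (by omega) x hx, ← hP.res l q l (by omega) x0 hx0]
      exact (Nat.mod_modEq _ _).trans (e2.trans (Nat.mod_modEq _ _).symm)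
    have e4 := hP.dec l l q (by omega) (by omega) x hx x0 hx0 x0 hx0 x0 hx0 e3
    have hodd := hP.odd l x0 hx0
    have hcop : Nat.Coprime (2 ^ (q + 2)) x0 := by
      apply Nat.Coprime.pow_left
      rw [Nat.coprime_two_left, Nat.odd_iff]
      exact hodd
    exact Nat.ModEq.cancel_right_of_coprime hcop e4
  choose! g hg hg2 using hx
  refine (Finset.card_le_card_of_injOn g (fun t ht => hg t ht) ?_).trans (hP.cls l q _)
  intro t ht s hs he
  have e1 := hg2 t ht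
  have e2 := hg2 s hs
  rw [he] at e1
  have e3 := Nat.ModEq.add_left_cancel' _ (e1.trans e2.symm)
  have hW : 2 ^ W ≤ 2 ^ (l - q) := Nat.pow_le_pow_right (by norm_num) (by omega)
  exact (two_pow_dvd_cancel e3 (by omega)).eq_of_lt_of_lt
    (lt_of_lt_of_le (mem_QP.mp ht).1 hW) (lt_of_lt_of_le (mem_QP.mp hs).1 hW)

/-! ### the abstract crossing count -/

open Classical in
/-- pairs `(s, F y t)` with `s` determined modulo `2 ^ m` -/
lemma cross_core {m n J B : ℕ} {S : Finset ℕ} (hS : ∀ s ∈ S, s < 2 ^ m) (Ys Xs : Finset ℕ)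
    (F : ℕ → ℕ → ℕ)
    (h : ∀ y ∈ Ys, (Xs.filter (fun t => ∃ s ∈ S, s + F y t ≡ n [MOD 2 ^ m])).card ≤ J * B) :
    (pmod m n S ((pairs Ys Xs).image (fun q => F (Nat.unpair q).1 (Nat.unpair q).2))).card ≤
      Ys.card * (J * B) := by
  classical
  set S' := (pairs Ys Xs).image (fun q => F (Nat.unpair q).1 (Nat.unpair q).2) with hS'
  -- choose a representation
  have hrep : ∀ s ∈ pmod m n S S', ∃ q ∈ Ys.sigma (fun y => Xs.filter (fun t => ∃ s ∈ S,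
      s + F y t ≡ n [MOD 2 ^ m])), F q.1 q.2 = s.2 := by
    intro s hs
    rw [mem_pmod] at hs
    obtain ⟨⟨h1, h2⟩, h3⟩ := hs
    rw [hS', mem_image] at h2
    obtain ⟨q, hq, he⟩ := h2
    rw [mem_pairs] at hq
    refine ⟨⟨(Nat.unpair q).1, (Nat.unpair q).2⟩, ?_, he⟩
    rw [mem_sigma, mem_filter]
    refine ⟨hq.1, hq.2, s.1, h1, ?_⟩
    rw [he]; exact h3
  choose! g hg hg2 using hrep
  have h1 : (pmod m n S S').card ≤ (Ys.sigma (fun y => Xs.filter (fun t => ∃ s ∈ S,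
      s + F y t ≡ n [MOD 2 ^ m]))).card := by
    refine Finset.card_le_card_of_injOn g (fun s hs => hg s hs) ?_
    intro s hs t ht he
    have e1 := hg2 s hs
    have e2 := hg2 t ht
    rw [he] at e1
    exact pmod_fst_inj hS hs ht (e1.symm.trans e2)
  refine h1.trans ?_
  rw [card_sigma]
  calc ∑ y ∈ Ys, (Xs.filter (fun t => ∃ s ∈ S, s + F y t ≡ n [MOD 2 ^ m])).card
      ≤ ∑ _y ∈ Ys, J * B := Finset.sum_le_sum h
    _ = Ys.card * (J * B) := by rw [sum_const, smul_eq_mul]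

/-! ### P type zones -/

/-- modulo `2 ^ (f + l)` the values of `S` are `g + 2 ^ f * P l x` -/
def PRep (X : ℕ → Finset ℕ) (P : ℕ → ℕ → ℕ) (f l g : ℕ) (S : Finset ℕ) : Prop :=
  ∀ s ∈ S, ∃ x ∈ X l, s ≡ g + 2 ^ f * P l x [MOD 2 ^ (f + l)]

lemma mul_mod_pow_modEq {f l D : ℕ} : 2 ^ f * (D % 2 ^ l) ≡ 2 ^ f * D [MOD 2 ^ (f + l)] := by
  rw [pow_add]
  exact Nat.ModEq.mul_left' _ (Nat.mod_modEq _ _)

lemma zP_rep (C : Codes) {p f b a κ : ℕ} :
    PRep (C.X p) (C.P p) f (b - f) (a + 2 ^ f * κ) (zreg C (.P p f b) a κ).S := by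
  intro s hs
  unfold zreg at hs
  simp only [mem_image, Reg.V, Reg.bot, Reg.c, Reg.top] at hs
  obtain ⟨x, hx, rfl⟩ := hs
  refine ⟨x, hx, ?_⟩
  have h1 := (mul_mod_pow_modEq (f := f) (l := b - f) (D := C.P p (b - f) x + κ)).add_left a
  have e : a + 2 ^ f * κ + 2 ^ f * C.P p (b - f) x = a + 2 ^ f * (C.P p (b - f) x + κ) := by ring
  rw [e]
  exact h1

lemma zPT_rep (C : Codes) {p e f b a κ : ℕ} (hP : PCode (C.X p) (C.P p)) (hfb : f ≤ b) :
    PRep (C.X p) (C.P p) f (b - f) (a + 2 ^ f * κ) (zreg C (.PT p e f b) a κ).S := by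
  intro s hs
  unfold zreg at hs
  simp only [mem_image, Reg.V, Reg.bot, Reg.c, Reg.top] at hs
  obtain ⟨q, hq, rfl⟩ := hs
  rw [mem_pairs] at hq
  refine ⟨(Nat.unpair q).1, hq.1, ?_⟩
  set x := (Nat.unpair q).1
  set t := (Nat.unpair q).2
  have h1 : 2 ^ f * ((C.P p (b + C.W e - f) x + 2 ^ (b - f) * t + κ) % 2 ^ (b + C.W e - f)) ≡
      2 ^ f * (C.P p (b + C.W e - f) x + 2 ^ (b - f) * t + κ) [MOD 2 ^ (f + (b - f))] :=
    mul_mod_pow_modEq.of_dvd (pow_dvd_pow 2 (by omega))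
  have h2 : C.P p (b + C.W e - f) x ≡ C.P p (b - f) x [MOD 2 ^ (b - f)] := by
    have := hP.res (b + C.W e - f) (b - f) (b - f) (by omega) x hq.1
    rw [← this]
    exact (Nat.mod_modEq _ _).symm
  have h3 : C.P p (b + C.W e - f) x + 2 ^ (b - f) * t + κ ≡ C.P p (b - f) x + 0 + κ
      [MOD 2 ^ (b - f)] := by
    refine Nat.ModEq.add_right _ (h2.add ?_)
    exact Nat.modEq_zero_iff_dvd.mpr (Dvd.intro _ rfl)
  have h4 : 2 ^ f * (C.P p (b + C.W e - f) x + 2 ^ (b - f) * t + κ) ≡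
      2 ^ f * (C.P p (b - f) x + 0 + κ) [MOD 2 ^ (f + (b - f))] := by
    rw [pow_add]
    exact Nat.ModEq.mul_left' _ h3
  have h5 := (h1.trans h4).add_left a
  have e : a + 2 ^ f * (C.P p (b - f) x + 0 + κ) = a + 2 ^ f * κ + 2 ^ f * C.P p (b - f) x := by
    ring
  rw [e] at h5
  exact h5

/-- the block digits for which there is a consistent variable form a `QP` -/
lemma sub_QP {X : ℕ → Finset ℕ} {P : ℕ → ℕ → ℕ} {W l f q h n : ℕ} (A : Finset ℕ)
    (hq : q + W ≤ l)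
    (hA : ∀ t ∈ A, t < 2 ^ W ∧ ∃ x ∈ X l, 2 ^ f * P l x + 2 ^ (f + q) * t + h ≡ n
      [MOD 2 ^ (f + l)]) : ∃ c, A ⊆ QP X P W l q c := by
  classical
  rcases A.eq_empty_or_nonempty with h0 | ⟨t0, ht0⟩
  · exact ⟨0, by rw [h0]; exact empty_subset _⟩
  obtain ⟨_, x0, hx0, e0⟩ := hA t0 ht0
  refine ⟨P l x0 + 2 ^ q * t0, ?_⟩
  intro t ht
  obtain ⟨b, x, hx, e⟩ := hA t ht
  rw [mem_QP]
  refine ⟨b, x, hx, ?_⟩
  have e1 := Nat.ModEq.add_right_cancel' _ (e.trans e0.symm)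
  have a1 : ∀ x t, 2 ^ f * P l x + 2 ^ (f + q) * t = 2 ^ f * (P l x + 2 ^ q * t) := by
    intro x t
    rw [pow_add]; ring
  rw [a1, a1] at e1
  have := two_pow_dvd_cancel e1 (by omega)
  rwa [Nat.add_sub_cancel_left] at this

/-- `B` bounds the number of block digits in every set `QP` -/
def QPB (X : ℕ → Finset ℕ) (P : ℕ → ℕ → ℕ) (W l q B : ℕ) (Xs : Finset ℕ) : Prop :=
  ∀ c, ∀ A ⊆ Xs, A ⊆ QP X P W l q c → A.card ≤ B

open Classical in
/-- P type zone against `RT`/`RTh` with the block inside the known range -/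
lemma cross_block {X : ℕ → Finset ℕ} {P : ℕ → ℕ → ℕ} {W l f q g m n B b v κ' a' E : ℕ}
    {S : Finset ℕ} (hS : PRep X P f l g S) (hm : f + l ≤ m) (hq : q + W ≤ l) (hb : b = f + q)
    (hv : m ≤ v) {Xs : Finset ℕ} (hXs : ∀ t ∈ Xs, t < 2 ^ W) (hB : QPB X P W l q B Xs) :
    (Xs.filter (fun t => ∃ s ∈ S, s + (a' + 2 ^ b * ((E + t + κ') % 2 ^ (v - b))) ≡ n
      [MOD 2 ^ m])).card ≤ 1 * B := by
  classical
  rw [one_mul]
  set A := Xs.filter (fun t => ∃ s ∈ S, s + (a' + 2 ^ b * ((E + t + κ') % 2 ^ (v - b))) ≡ n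
      [MOD 2 ^ m]) with hA
  obtain ⟨c, hc⟩ := sub_QP (X := X) (P := P) (W := W) (l := l) (f := f) (q := q)
    (h := g + (a' + 2 ^ b * (E + κ'))) (n := n) A hq (by
      intro t ht
      rw [hA, mem_filter] at ht
      obtain ⟨ht, s, hs, he⟩ := ht
      obtain ⟨x, hx, hxs⟩ := hS s hs
      refine ⟨hXs t ht, x, hx, ?_⟩
      have h1 : s + (a' + 2 ^ b * ((E + t + κ') % 2 ^ (v - b))) ≡ n [MOD 2 ^ (f + l)] :=
        he.of_dvd (pow_dvd_pow 2 hm)
      have h2 : 2 ^ b * ((E + t + κ') % 2 ^ (v - b)) ≡ 2 ^ b * (E + t + κ') [MOD 2 ^ (f + l)] :=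
        mul_mod_pow_modEq.of_dvd (pow_dvd_pow 2 (by omega))
      have h3 : s + (a' + 2 ^ b * ((E + t + κ') % 2 ^ (v - b))) ≡
          (g + 2 ^ f * P l x) + (a' + 2 ^ b * (E + t + κ')) [MOD 2 ^ (f + l)] :=
        hxs.add (h2.add_left a')
      refine Nat.ModEq.trans ?_ (h3.symm.trans h1)
      rw [← hb]
      have e : 2 ^ f * P l x + 2 ^ b * t + (g + (a' + 2 ^ b * (E + κ'))) =
        (g + 2 ^ f * P l x) + (a' + 2 ^ b * (E + t + κ')) := by ring
      rw [e])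
  exact hB c A (filter_subset _ _) hc

open Classical in
/-- P type zone against the zone above a `PT` region, block inside the known range -/
lemma cross_blockS {X : ℕ → Finset ℕ} {P : ℕ → ℕ → ℕ} {W l f q g m n B b v κ' κ₂ a' E : ℕ}
    {S : Finset ℕ} (hS : PRep X P f l g S) (hm : f + l ≤ m) (hq : q + W ≤ l) (hb : b = f + q)
    (hv : m ≤ v) {Xs : Finset ℕ} (hXs : ∀ t ∈ Xs, t < 2 ^ W) (hB : QPB X P W l q B Xs) :
    (Xs.filter (fun t => ∃ s ∈ S, s + (a' + 2 ^ b * ((t + κ') % 2 ^ W) +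
      2 ^ (b + W) * ((E + κ₂) % 2 ^ (v - (b + W)))) ≡ n [MOD 2 ^ m])).card ≤ 2 * B := by
  classical
  set A := Xs.filter (fun t => ∃ s ∈ S, s + (a' + 2 ^ b * ((t + κ') % 2 ^ W) +
      2 ^ (b + W) * ((E + κ₂) % 2 ^ (v - (b + W)))) ≡ n [MOD 2 ^ m]) with hA
  -- the carry
  have hcar : ∀ t ∈ A, (t + κ') / 2 ^ W = κ' / 2 ^ W ∨ (t + κ') / 2 ^ W = κ' / 2 ^ W + 1 := by
    intro t ht
    rw [hA, mem_filter] at ht
    have h1 := hXs t ht.1
    have h2 := Nat.div_add_mod κ' (2 ^ W)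
    have h3 := Nat.mod_lt κ' (show 0 < 2 ^ W by positivity)
    have hp : 0 < 2 ^ W := by positivity
    have e : t + κ' = (t + κ' % 2 ^ W) + 2 ^ W * (κ' / 2 ^ W) := by omega
    have e2 : (t + κ') / 2 ^ W = (t + κ' % 2 ^ W) / 2 ^ W + κ' / 2 ^ W := by
      conv_lhs => rw [e]
      rw [Nat.add_mul_div_left _ _ hp]
    rw [e2]
    rcases Nat.lt_or_ge (t + κ' % 2 ^ W) (2 ^ W) with h4 | h4
    · left; rw [Nat.div_eq_of_lt h4]; omega
    · right
      have : (t + κ' % 2 ^ W) / 2 ^ W = 1 := by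
        rw [Nat.div_eq_iff hp]
        constructor <;> omega
      rw [this]; omega
  have hpart : ∀ j, (A.filter (fun t => (t + κ') / 2 ^ W = j)).card ≤ B := by
    intro j
    obtain ⟨c, hc⟩ := sub_QP (X := X) (P := P) (W := W) (l := l) (f := f) (q := q)
      (h := g + (a' + 2 ^ b * κ' + 2 ^ (b + W) * (E + κ₂))) (n := n + 2 ^ (b + W) * j)
      (A.filter (fun t => (t + κ') / 2 ^ W = j)) hq (by
        intro t ht
        rw [mem_filter, hA, mem_filter] at ht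
        obtain ⟨⟨ht, s, hs, he⟩, hj⟩ := ht
        obtain ⟨x, hx, hxs⟩ := hS s hs
        refine ⟨hXs t ht, x, hx, ?_⟩
        have h1 := (he.of_dvd (pow_dvd_pow 2 hm)).add_right (2 ^ (b + W) * j)
        have h2 : 2 ^ (b + W) * ((E + κ₂) % 2 ^ (v - (b + W))) ≡ 2 ^ (b + W) * (E + κ₂)
            [MOD 2 ^ (f + l)] :=
          mul_mod_pow_modEq.of_dvd (pow_dvd_pow 2 (by omega))
        have h3 : 2 ^ b * ((t + κ') % 2 ^ W) + 2 ^ (b + W) * j = 2 ^ b * (t + κ') := by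
          have := Nat.div_add_mod (t + κ') (2 ^ W)
          rw [hj] at this
          conv_rhs => rw [← this]
          rw [pow_add]; ring
        have h4 : s + (a' + 2 ^ b * ((t + κ') % 2 ^ W) +
            2 ^ (b + W) * ((E + κ₂) % 2 ^ (v - (b + W)))) + 2 ^ (b + W) * j ≡
            (g + 2 ^ f * P l x) + (a' + 2 ^ b * (t + κ') + 2 ^ (b + W) * (E + κ₂))
            [MOD 2 ^ (f + l)] := by
          have e : s + (a' + 2 ^ b * ((t + κ') % 2 ^ W) +
            2 ^ (b + W) * ((E + κ₂) % 2 ^ (v - (b + W)))) + 2 ^ (b + W) * j =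
            s + (a' + (2 ^ b * ((t + κ') % 2 ^ W) + 2 ^ (b + W) * j) +
              2 ^ (b + W) * ((E + κ₂) % 2 ^ (v - (b + W)))) := by ring
          rw [e, h3]
          exact hxs.add (h2.add_left _)
        refine Nat.ModEq.trans ?_ (h4.symm.trans h1)
        rw [← hb]
        have e : 2 ^ f * P l x + 2 ^ b * t + (g + (a' + 2 ^ b * κ' + 2 ^ (b + W) * (E + κ₂))) =
          (g + 2 ^ f * P l x) + (a' + 2 ^ b * (t + κ') + 2 ^ (b + W) * (E + κ₂)) := by ring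
        rw [e])
    exact hB c _ ((filter_subset _ _).trans (filter_subset _ _)) hc
  have hsub : A ⊆ A.filter (fun t => (t + κ') / 2 ^ W = κ' / 2 ^ W) ∪
      A.filter (fun t => (t + κ') / 2 ^ W = κ' / 2 ^ W + 1) := by
    intro t ht
    rw [mem_union]
    rcases hcar t ht with h | h
    · exact Or.inl (mem_filter.mpr ⟨ht, h⟩)
    · exact Or.inr (mem_filter.mpr ⟨ht, h⟩)
  calc A.card ≤ _ := card_le_card hsub
    _ ≤ _ := card_union_le _ _
    _ ≤ B + B := Nat.add_le_add (hpart _) (hpart _)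
    _ = 2 * B := by ring

end Pool.Agent.Helper5.ETP
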