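import Mathlib
import Pool.Agent.Helper5.ETP.Cross

/-!
# E-T (MP_12a1af_nt), project T*: P type zones with known low digits; regions above `K'`
-/

open Finset

namespace Pool.Agent.Helper5.ETP

open Pool.Agent.ETS

/-- variables with equal contents modulo `2 ^ k` are congruent modulo `2 ^ (k + 2)` -/
lemma modEq_of_res {X : ℕ → Finset ℕ} {P : ℕ → ℕ → ℕ} (hP : PCode X P) {l k x y : ℕ} (hk : k ≤ l)
    (hx : x ∈ X l) (hy : y ∈ X l) (h : P k x ≡ P k y [MOD 2 ^ k]) : x ≡ y [MOD 2 ^ (k + 2)] := by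
  have e3 : P k x + P k y ≡ P k y + P k y [MOD 2 ^ k] := Nat.ModEq.add_right _ h
  have e4 := hP.dec l l k hk hk x hx y hy y hy y hy e3
  have hcop : Nat.Coprime (2 ^ (k + 2)) y := by
    apply Nat.Coprime.pow_left
    rw [Nat.coprime_two_left, Nat.odd_iff]
    exact hP.odd l y hy
  exact Nat.ModEq.cancel_right_of_coprime hcop e4

/-- variables of length `l` in a residue class modulo `2 ^ (k + 2)` -/
def FBs (X : ℕ → Finset ℕ) (l k c : ℕ) : Finset ℕ := (X l).filter (fun x => x % 2 ^ (k + 2) = c)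

/-- the variables of a `P` zone with prescribed digits below `f + k` lie in a class -/
lemma zP_low (C : Codes) {p f b a κ k r₀ : ℕ} (hP : PCode (C.X p) (C.P p)) (hk : f + k ≤ b) :
    ∃ c, ∀ x ∈ C.X p (b - f),
      (a + 2 ^ f * ((C.P p (b - f) x + κ) % 2 ^ (b - f))) % 2 ^ (f + k) = r₀ →
      x ∈ FBs (C.X p) (b - f) k c := by
  classical
  by_cases h : ∃ x₀ ∈ C.X p (b - f),
      (a + 2 ^ f * ((C.P p (b - f) x₀ + κ) % 2 ^ (b - f))) % 2 ^ (f + k) = r₀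
  · obtain ⟨x₀, hx₀, e₀⟩ := h
    refine ⟨x₀ % 2 ^ (k + 2), fun x hx e => ?_⟩
    unfold FBs
    rw [mem_filter]
    refine ⟨hx, ?_⟩
    have e1 : (a + 2 ^ f * ((C.P p (b - f) x + κ) % 2 ^ (b - f))) ≡
        (a + 2 ^ f * ((C.P p (b - f) x₀ + κ) % 2 ^ (b - f))) [MOD 2 ^ (f + k)] := by
      unfold Nat.ModEq; rw [e, e₀]
    have e2 := two_pow_dvd_cancel (Nat.ModEq.add_left_cancel' _ e1) (by omega)
    rw [Nat.add_sub_cancel_left] at e2
    have e3 : ∀ D, D % 2 ^ (b - f) ≡ D [MOD 2 ^ k] := fun D =>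
      (Nat.mod_modEq D (2 ^ (b - f))).of_dvd (pow_dvd_pow 2 (by omega))
    have e4 := ((e3 _).symm.trans e2).trans (e3 _)
    have e5 := Nat.ModEq.add_right_cancel' _ e4
    refine modEq_of_res hP (by omega) hx hx₀ ?_
    rw [← hP.res (b - f) k (b - f) (by omega) x hx, ← hP.res (b - f) k (b - f) (by omega) x₀ hx₀]
    exact (Nat.mod_modEq _ _).trans (e5.trans (Nat.mod_modEq _ _).symm)
  · refine ⟨0, fun x hx e => absurd ⟨x, hx, e⟩ h⟩

/-- the same for `PT` zones -/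
lemma zPT_low (C : Codes) {p e f b a κ k r₀ : ℕ} (hP : PCode (C.X p) (C.P p)) (hk : f + k ≤ b) :
    ∃ c, ∀ x ∈ C.X p (b - f), ∀ t,
      (a + 2 ^ f * ((C.P p (b + C.W e - f) x + 2 ^ (b - f) * t + κ) % 2 ^ (b + C.W e - f))) %
        2 ^ (f + k) = r₀ →
      x ∈ FBs (C.X p) (b - f) k c := by
  classical
  by_cases h : ∃ x₀ ∈ C.X p (b - f), ∃ t₀,
      (a + 2 ^ f * ((C.P p (b + C.W e - f) x₀ + 2 ^ (b - f) * t₀ + κ) % 2 ^ (b + C.W e - f))) %
        2 ^ (f + k) = r₀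
  · obtain ⟨x₀, hx₀, t₀, e₀⟩ := h
    refine ⟨x₀ % 2 ^ (k + 2), fun x hx t ee => ?_⟩
    unfold FBs
    rw [mem_filter]
    refine ⟨hx, ?_⟩
    have e1 : (a + 2 ^ f * ((C.P p (b + C.W e - f) x + 2 ^ (b - f) * t + κ) %
        2 ^ (b + C.W e - f))) ≡
        (a + 2 ^ f * ((C.P p (b + C.W e - f) x₀ + 2 ^ (b - f) * t₀ + κ) % 2 ^ (b + C.W e - f)))
        [MOD 2 ^ (f + k)] := by
      unfold Nat.ModEq; rw [ee, e₀]
    have e2 := two_pow_dvd_cancel (Nat.ModEq.add_left_cancel' _ e1) (by omega)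
    rw [Nat.add_sub_cancel_left] at e2
    have e3 : ∀ D, D % 2 ^ (b + C.W e - f) ≡ D [MOD 2 ^ k] := fun D =>
      (Nat.mod_modEq D (2 ^ (b + C.W e - f))).of_dvd (pow_dvd_pow 2 (by omega))
    have e4 := ((e3 _).symm.trans e2).trans (e3 _)
    have e5 := Nat.ModEq.add_right_cancel' _ e4
    have hz : ∀ u, 2 ^ (b - f) * u ≡ 0 [MOD 2 ^ k] := fun u =>
      Nat.modEq_zero_iff_dvd.mpr (Dvd.dvd.mul_right (pow_dvd_pow 2 (by omega)) _)
    have e6 : C.P p (b + C.W e - f) x ≡ C.P p (b + C.W e - f) x₀ [MOD 2 ^ k] := by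
      have a1 := (Nat.ModEq.refl (n := 2 ^ k) (C.P p (b + C.W e - f) x)).add (hz t)
      have a2 := (Nat.ModEq.refl (n := 2 ^ k) (C.P p (b + C.W e - f) x₀)).add (hz t₀)
      rw [add_zero] at a1 a2
      exact a1.symm.trans (e5.trans a2)
    refine modEq_of_res hP (by omega) hx hx₀ ?_
    rw [← hP.res (b + C.W e - f) k (b - f) (by omega) x hx,
      ← hP.res (b + C.W e - f) k (b - f) (by omega) x₀ hx₀]
    exact (Nat.mod_modEq _ _).trans (e6.trans (Nat.mod_modEq _ _).symm)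
  · refine ⟨0, fun x hx t ee => absurd ⟨x, hx, t, ee⟩ h⟩

/-- low digits of the first member of a consistent pair -/
lemma zcons_low {K K' n : ℕ} {Z Z' : Zone} (hK : Z.top ≤ K) (hK' : Z'.top ≤ K') {be r₀ : ℕ}
    (hlow : Zone.Low Z' be r₀) (h1 : be ≤ Z.top) (h2 : be ≤ Z'.top) :
    ∃ r₁, ∀ s ∈ zcons K K' n Z Z', s.1 % 2 ^ be = r₁ := by
  refine ⟨(n + 2 ^ be - r₀ % 2 ^ be) % 2 ^ be, ?_⟩
  intro s hs
  have h3 := zcons_modEq hK hK' hs h1 h2
  have h4 := hlow _ (mem_zcons.mp hs).1.2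
  have hr : r₀ % 2 ^ be = r₀ := by rw [← h4, Nat.mod_mod]
  have hlt : r₀ < 2 ^ be := by rw [← h4]; exact Nat.mod_lt _ (by positivity)
  rw [hr]
  have h5 : s.1 + r₀ ≡ n [MOD 2 ^ be] := by
    have : s.2 ≡ r₀ [MOD 2 ^ be] := by
      unfold Nat.ModEq; rw [h4, hr]
    exact (this.symm.add_left s.1).trans h3
  have h6 : s.1 + r₀ ≡ (n + 2 ^ be - r₀) + r₀ [MOD 2 ^ be] := by
    have : n + 2 ^ be - r₀ + r₀ = n + 2 ^ be := by omega
    rw [this]
    exact h5.trans (by simp [Nat.ModEq])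
  exact Nat.ModEq.add_right_cancel' _ h6

/-- (LOW): a `P` region containing the zone of `a'` -/
theorem low_P (C : Codes) {p f b a κ k K K' n r₀ : ℕ} {Z' : Zone} (hP : PCode (C.X p) (C.P p))
    (hok' : Zone.Ok Z') (hlow : Zone.Low Z' (f + k) r₀) (hk : f + k ≤ b)
    (hbK : b ≤ K) (hK' : Z'.top ≤ K') (h2 : f + k ≤ Z'.top) (htop : Z'.top ≤ b) :
    (zcons K K' n (zreg C (.P p f b) a κ) Z').card ≤ 2 ^ ((b - f + 1) / 2 - k) + 1 := by
  classical
  obtain ⟨r₁, hr₁⟩ := zcons_low (n := n) (Z := zreg C (.P p f b) a κ) (K := K) hbK hK' hlow hk h2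
  obtain ⟨c, hc⟩ := zP_low (κ := κ) (r₀ := r₁) C hP hk
  refine (zcons_le_of_fst hok' hbK hK' htop ((FBs (C.X p) (b - f) k c).image
    (fun x => a + 2 ^ f * ((C.P p (b - f) x + κ) % 2 ^ (b - f)))) ?_).trans
    (card_image_le.trans (hP.cls _ _ _))
  intro s hs
  have h3 := hr₁ s hs
  have h4 := (mem_zcons.mp hs).1.1
  unfold zreg at h4
  simp only [mem_image, Reg.V, Reg.bot, Reg.c, Reg.top] at h4
  obtain ⟨x, hx, he⟩ := h4
  rw [mem_image]
  rw [← he] at h3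
  exact ⟨x, hc x hx h3, he⟩

/-- (LOW): a `PT` region whose part below the block contains the zone of `a'` -/
theorem low_PT (C : Codes) {p e f b a κ k K K' n r₀ : ℕ} {Z' : Zone} (hP : PCode (C.X p) (C.P p))
    (hok' : Zone.Ok Z') (hlow : Zone.Low Z' (f + k) r₀) (hk : f + k ≤ b)
    (hbK : b + C.W e ≤ K) (hK' : Z'.top ≤ K') (h2 : f + k ≤ Z'.top) (htop : Z'.top ≤ b + C.W e) :
    (zcons K K' n (zreg C (.PT p e f b) a κ) Z').card ≤
      (2 ^ ((b - f + 1) / 2 - k) + 1) * (C.T e).card := by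
  classical
  obtain ⟨r₁, hr₁⟩ := zcons_low (n := n) (Z := zreg C (.PT p e f b) a κ) (K := K) hbK hK' hlow
    (by show f + k ≤ b + C.W e; omega) h2
  obtain ⟨c, hc⟩ := zPT_low (e := e) (κ := κ) (r₀ := r₁) C hP hk
  refine (zcons_le_of_fst hok' hbK hK' htop ((pairs (FBs (C.X p) (b - f) k c) (C.T e)).image
    (fun q => a + 2 ^ f * ((C.P p (b + C.W e - f) (Nat.unpair q).1 +
      2 ^ (b - f) * (Nat.unpair q).2 + κ) % 2 ^ (b + C.W e - f)))) ?_).trans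
    (card_image_le.trans ?_)
  · intro s hs
    have h3 := hr₁ s hs
    have h4 := (mem_zcons.mp hs).1.1
    unfold zreg at h4
    simp only [mem_image, Reg.V, Reg.bot, Reg.c, Reg.top] at h4
    obtain ⟨q, hq, he⟩ := h4
    rw [mem_pairs] at hq
    rw [mem_image]
    rw [← he] at h3
    exact ⟨q, mem_pairs.mpr ⟨hc _ hq.1 _ h3, hq.2⟩, he⟩
  · rw [card_pairs]
    exact Nat.mul_le_mul_right _ (hP.cls _ _ _)

/-- (ABOVE): the whole region of `a` is above `K'` -/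
theorem above {K K' n be r₀ : ℕ} {Z Z' : Zone} (hok : Zone.Ok Z) (hok' : Zone.Ok Z')
    (hlow : Zone.Low Z be r₀) (hbe : be ≤ Z.top) (hK : Z.top ≤ K) (hK' : Z'.top ≤ K')
    (h : K' ≤ be) : (zcons K K' n Z Z').card ≤ 2 := by
  classical
  set ν := ((n + 2 ^ Z.top - 2 ^ K') % 2 ^ Z.top) / 2 ^ K' with hν
  set ν' := (ν + 2 ^ (Z.top - K') - 1) % 2 ^ (Z.top - K') with hν'
  have hsub : ∀ s ∈ zcons K K' n Z Z', s.1 ∈ ({r₀ + 2 ^ be * (ν / 2 ^ (be - K')),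
      r₀ + 2 ^ be * (ν' / 2 ^ (be - K'))} : Finset ℕ) := by
    intro s hs
    have h1 := zcons_cut hok hok' hK hK' (by omega) hs
    have h2 := hlow _ (mem_zcons.mp hs).1.1
    have h3 := Nat.div_add_mod s.1 (2 ^ be)
    have h4 : s.1 / 2 ^ be = (s.1 / 2 ^ K') / 2 ^ (be - K') := by
      rw [Nat.div_div_eq_div_mul, ← pow_add]
      congr 2
      omega
    rw [h2, h4] at h3
    rw [mem_insert, mem_singleton]
    rcases h1 with h1 | h1
    · left; rw [h1] at h3; exact h3.symm.trans (add_comm _ _)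
    · right; rw [h1] at h3; exact h3.symm.trans (add_comm _ _)
  exact (zcons_le_of_fst hok' hK hK' (by omega) _ hsub).trans card_le_two

end Pool.Agent.Helper5.ETP
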