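import Mathlib
import Pool.Agent.Helper5.ETP.Low

/-!
# E-T (MP_12a1af_nt), project T*: `P` regions containing the scale `K'`
-/

open Finset

namespace Pool.Agent.Helper5.ETP

open Pool.Agent.ETS

/-- the moment lemma for variables of length `l` of one `P` code, both families -/
def CutBd (X : ℕ → Finset ℕ) (P : ℕ → ℕ → ℕ) (l E : ℕ) : Prop :=
  (∀ a k G t, a ≤ l → k ≤ l →
    ((X l).filter (fun x => (∃ x' ∈ X a, x * x' % 2 ^ (a + 2) = G) ∧ P l x / 2 ^ k = t)).card ≤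
      2 ^ E * (1 + 2 ^ ((l - a) / 2 + 4) / 2 ^ (l - k))) ∧
  (∀ a k G t, a ≤ l → k ≤ l →
    ((X l).filter (fun x => x % 2 ^ (a + 2) = G ∧ P l x / 2 ^ k = t)).card ≤
      2 ^ E * (1 + (2 ^ ((l + 1) / 2 - a) + 1) / 2 ^ (l - k)))

/-- shifting changes the top digits in at most two ways -/
lemma shift_top {k l κ v : ℕ} (hk : k ≤ l) : ∃ t₁ t₂, ∀ p, p < 2 ^ l →
    ((p + κ) % 2 ^ l) / 2 ^ k = v → p / 2 ^ k = t₁ ∨ p / 2 ^ k = t₂ := by
  set κ₀ := κ % 2 ^ l with hκ₀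
  have hκlt : κ₀ < 2 ^ l := Nat.mod_lt _ (by positivity)
  set A := v * 2 ^ k + 2 ^ l - κ₀ with hA
  refine ⟨_, _, fun p hp hv => div_mem_of_window (al := l) (n := A + 2 ^ (k + 1) - 1)
    (w := 2 ^ (k + 1) - 1 - ((p + κ) % 2 ^ l) % 2 ^ k) hk hp ?_ ?_ ?_⟩
  · have := Nat.mod_lt ((p + κ) % 2 ^ l) (show 0 < 2 ^ k by positivity)
    rw [pow_succ]; omega
  · have : 0 < 2 ^ (k + 1) := by positivity
    omega
  · have h1 := Nat.div_add_mod ((p + κ) % 2 ^ l) (2 ^ k)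
    rw [hv] at h1
    have h2 := Nat.mod_lt ((p + κ) % 2 ^ l) (show 0 < 2 ^ k by positivity)
    set D := (p + κ) % 2 ^ l with hD
    set r := D % 2 ^ k with hr
    have h3 : p + κ₀ ≡ D [MOD 2 ^ l] := by
      have a1 : p + κ₀ ≡ p + κ [MOD 2 ^ l] := (Nat.mod_modEq κ (2 ^ l)).add_left p
      exact a1.trans (Nat.mod_modEq _ _).symm
    have hpw : 2 ^ (k + 1) = 2 * 2 ^ k := by rw [pow_succ]; ring
    have hpos : 0 < 2 ^ k := by positivity
    have h4 : p + (2 ^ (k + 1) - 1 - r) + κ₀ ≡ (A + 2 ^ (k + 1) - 1) + κ₀ [MOD 2 ^ l] := by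
      have e1 : p + (2 ^ (k + 1) - 1 - r) + κ₀ = (p + κ₀) + (2 ^ (k + 1) - 1 - r) := by ring
      have e2 : (A + 2 ^ (k + 1) - 1) + κ₀ = (D + (2 ^ (k + 1) - 1 - r)) + 2 ^ l := by
        have : v * 2 ^ k = 2 ^ k * v := by ring
        omega
      rw [e1, e2]
      have e3 : (D + (2 ^ (k + 1) - 1 - r)) + 2 ^ l ≡ D + (2 ^ (k + 1) - 1 - r) [MOD 2 ^ l] := by
        simp [Nat.ModEq]
      exact (h3.add_right _).trans e3.symm
    exact Nat.ModEq.add_right_cancel' _ h4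

/-- a union of four cases -/
lemma card_four {F : Finset ℕ} {G : ℕ → ℕ} {t₁ t₂ t₃ t₄ B : ℕ}
    (hF : ∀ x ∈ F, G x = t₁ ∨ G x = t₂ ∨ G x = t₃ ∨ G x = t₄)
    (hB : ∀ t, (F.filter (fun x => G x = t)).card ≤ B) : F.card ≤ 4 * B := by
  classical
  have h : F ⊆ (F.filter (fun x => G x = t₁) ∪ F.filter (fun x => G x = t₂)) ∪
      (F.filter (fun x => G x = t₃) ∪ F.filter (fun x => G x = t₄)) := by
    intro x hx
    simp only [mem_union, mem_filter]
    rcases hF x hx with h | h | h | h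
    · exact Or.inl (Or.inl ⟨hx, h⟩)
    · exact Or.inl (Or.inr ⟨hx, h⟩)
    · exact Or.inr (Or.inl ⟨hx, h⟩)
    · exact Or.inr (Or.inr ⟨hx, h⟩)
  refine (card_le_card h).trans ((card_union_le _ _).trans ?_)
  have h1 := (card_union_le (F.filter (fun x => G x = t₁)) (F.filter (fun x => G x = t₂)))
  have h2 := (card_union_le (F.filter (fun x => G x = t₃)) (F.filter (fun x => G x = t₄)))
  have b1 := hB t₁
  have b2 := hB t₂
  have b3 := hB t₃
  have b4 := hB t₄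
  omega

/-- the top digits of a value of a `P` zone -/
lemma div_P {a f k l D : ℕ} (ha : a < 2 ^ f) :
    (a + 2 ^ f * (D % 2 ^ l)) / 2 ^ (f + k) = (D % 2 ^ l) / 2 ^ k := by
  rw [pow_add, ← Nat.div_div_eq_div_mul, Nat.add_mul_div_left _ _ (by positivity),
    Nat.div_eq_of_lt ha, zero_add]

open Classical in
/-- a `P` region containing `K'`: the variables lie in a family `F` for which the moment lemma
holds -/
theorem cut_P_core (C : Codes) {p f b a κ k K n B : ℕ} {Z' : Zone} (hfb : f ≤ b)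
    (hok' : Zone.Ok Z') (ha : a < 2 ^ f) (hk : k ≤ b - f) (hbK : b ≤ K)
    (hK' : Z'.top ≤ f + k) (hlt : ∀ x ∈ C.X p (b - f), C.P p (b - f) x < 2 ^ (b - f))
    (F : Finset ℕ)
    (hF : ∀ s ∈ zcons K (f + k) n (zreg C (.P p f b) a κ) Z', ∀ x ∈ C.X p (b - f),
      s.1 = a + 2 ^ f * ((C.P p (b - f) x + κ) % 2 ^ (b - f)) → x ∈ F)
    (hB : ∀ t, (F.filter (fun x => C.P p (b - f) x / 2 ^ k = t)).card ≤ B) :
    (zcons K (f + k) n (zreg C (.P p f b) a κ) Z').card ≤ 4 * B := by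
  classical
  have hok : Zone.Ok (zreg C (.P p f b) a κ) := zreg_ok C _ hfb ha
  have hcut := fun s (hs : s ∈ zcons K (f + k) n (zreg C (.P p f b) a κ) Z') =>
    zcons_cut hok hok' hbK hK' (show f + k ≤ b by omega) hs
  set v₁ := ((n + 2 ^ (zreg C (.P p f b) a κ).top - 2 ^ (f + k)) %
    2 ^ (zreg C (.P p f b) a κ).top) / 2 ^ (f + k) with hv₁
  set v₂ := (v₁ + 2 ^ ((zreg C (.P p f b) a κ).top - (f + k)) - 1) %
      2 ^ ((zreg C (.P p f b) a κ).top - (f + k)) with hv₂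
  obtain ⟨t₁, t₂, h12⟩ := shift_top (κ := κ) (v := v₁) hk
  obtain ⟨t₃, t₄, h34⟩ := shift_top (κ := κ) (v := v₂) hk
  set F' := F.filter (fun x => C.P p (b - f) x / 2 ^ k = t₁ ∨ C.P p (b - f) x / 2 ^ k = t₂ ∨
    C.P p (b - f) x / 2 ^ k = t₃ ∨ C.P p (b - f) x / 2 ^ k = t₄) with hF'
  refine (zcons_le_of_fst hok' hbK hK' (show Z'.top ≤ b by omega) (F'.image
    (fun x => a + 2 ^ f * ((C.P p (b - f) x + κ) % 2 ^ (b - f)))) ?_).trans
    (card_image_le.trans ?_)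
  · intro s hs
    have h4 := (mem_zcons.mp hs).1.1
    unfold zreg at h4
    simp only [mem_image, Reg.V, Reg.bot, Reg.c, Reg.top] at h4
    obtain ⟨x, hx, he⟩ := h4
    rw [mem_image]
    refine ⟨x, ?_, he⟩
    rw [hF', mem_filter]
    refine ⟨hF s hs x hx he.symm, ?_⟩
    have h5 := hcut s hs
    rw [← he, div_P ha] at h5
    have h6 := hlt x hx
    rcases h5 with h5 | h5
    · rcases h12 _ h6 h5 with h | h
      · exact Or.inl h
      · exact Or.inr (Or.inl h)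
    · rcases h34 _ h6 h5 with h | h
      · exact Or.inr (Or.inr (Or.inl h))
      · exact Or.inr (Or.inr (Or.inr h))
  · refine card_four (G := fun x => C.P p (b - f) x / 2 ^ k) (t₁ := t₁) (t₂ := t₂) (t₃ := t₃)
      (t₄ := t₄) (fun x hx => (mem_filter.mp hx).2) (fun t => ?_)
    refine (card_le_card ?_).trans (hB t)
    exact filter_subset_filter _ (filter_subset _ _)

lemma pcode_lt {X : ℕ → Finset ℕ} {P : ℕ → ℕ → ℕ} (hP : PCode X P) {l l₀ x : ℕ} (hx : x ∈ X l₀) :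
    P l x < 2 ^ l := by
  rw [← hP.res l l l₀ le_rfl x hx]
  exact Nat.mod_lt _ (by positivity)

/-- (CUT), `P` against any zone of `a'` with known digits below `f + j` -/
theorem cut_P_FB (C : Codes) {p f b a κ j k K n r₀ E : ℕ} {Z' : Zone}
    (hP : PCode (C.X p) (C.P p)) (hcb : CutBd (C.X p) (C.P p) (b - f) E) (hfb : f ≤ b)
    (hok' : Zone.Ok Z') (hlow : Zone.Low Z' (f + j) r₀) (ha : a < 2 ^ f) (hk : k ≤ b - f)
    (hbK : b ≤ K) (hK' : Z'.top ≤ f + k) (hj : f + j ≤ Z'.top) :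
    (zcons K (f + k) n (zreg C (.P p f b) a κ) Z').card ≤
      4 * (2 ^ E * (1 + (2 ^ ((b - f + 1) / 2 - j) + 1) / 2 ^ (b - f - k))) := by
  classical
  obtain ⟨r₁, hr₁⟩ := zcons_low (n := n) (Z := zreg C (.P p f b) a κ) (K := K) hbK hK' hlow
    (show f + j ≤ b by omega) hj
  obtain ⟨c, hc⟩ := zP_low (κ := κ) (a := a) (r₀ := r₁) C hP (show f + j ≤ b by omega)
  refine cut_P_core C hfb hok' ha hk hbK hK' (fun x hx => pcode_lt hP hx) (FBs (C.X p) (b - f) j c) ?_ ?_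
  · intro s hs x hx he
    have h3 := hr₁ s hs
    rw [he] at h3
    exact hc x hx h3
  · intro t
    refine (card_le_card ?_).trans (hcb.2 j k c t (by omega) hk)
    intro x hx
    unfold FBs at hx
    simp only [mem_filter] at hx ⊢
    exact ⟨hx.1.1, hx.1.2, hx.2⟩

/-- the variables of the `P` zone are first factors of products in a residue class -/
lemma zP_fst {X : ℕ → Finset ℕ} {P : ℕ → ℕ → ℕ} (hP : PCode X P) {f l j c : ℕ} (hj : j ≤ l)
    (F : Finset ℕ) (hFX : F ⊆ X l)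
    (hF : ∀ x ∈ F, ∃ x' ∈ X j, 2 ^ f * P l x + 2 ^ f * P j x' ≡ c [MOD 2 ^ (f + j)]) :
    ∃ G, ∀ x ∈ F, ∃ x' ∈ X j, x * x' % 2 ^ (j + 2) = G := by
  classical
  rcases F.eq_empty_or_nonempty with h0 | ⟨x₀, hx₀⟩
  · exact ⟨0, by rw [h0]; simp⟩
  obtain ⟨x₀', hx₀', e₀⟩ := hF x₀ hx₀
  refine ⟨x₀ * x₀' % 2 ^ (j + 2), fun x hx => ?_⟩
  obtain ⟨x', hx', e⟩ := hF x hx
  refine ⟨x', hx', ?_⟩
  have e1 := e.trans e₀.symm
  rw [← mul_add, ← mul_add] at e1
  have e2 := two_pow_dvd_cancel e1 (by omega)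
  rw [Nat.add_sub_cancel_left] at e2
  have e3 : P j x + P j x' ≡ P j x₀ + P j x₀' [MOD 2 ^ j] := by
    have a1 : P j x ≡ P l x [MOD 2 ^ j] := by
      rw [← hP.res l j l hj x (hFX hx)]; exact Nat.mod_modEq _ _
    have a2 : P j x₀ ≡ P l x₀ [MOD 2 ^ j] := by
      rw [← hP.res l j l hj x₀ (hFX hx₀)]; exact Nat.mod_modEq _ _
    exact ((a1.add_right _).trans e2).trans (a2.symm.add_right _)
  exact hP.dec l j j hj le_rfl x (hFX hx) x₀ (hFX hx₀) x' hx' x₀' hx₀' e3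

/-- (CUT), `P` against a `P` type zone of `a'` with the same bottom and the same code -/
theorem cut_P_FA (C : Codes) {p f b a κ j k K n g E : ℕ} {Z' : Zone}
    (hP : PCode (C.X p) (C.P p)) (hcb : CutBd (C.X p) (C.P p) (b - f) E) (hfb : f ≤ b)
    (hok' : Zone.Ok Z') (hrep : PRep (C.X p) (C.P p) f j g Z'.S) (ha : a < 2 ^ f)
    (hk : k ≤ b - f) (hbK : b ≤ K) (hK' : Z'.top ≤ f + k) (hj : f + j ≤ Z'.top) :
    (zcons K (f + k) n (zreg C (.P p f b) a κ) Z').card ≤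
      4 * (2 ^ E * (1 + 2 ^ ((b - f - j) / 2 + 4) / 2 ^ (b - f - k))) := by
  classical
  set F := (C.X p (b - f)).filter (fun x => ∃ x' ∈ C.X p j,
    2 ^ f * C.P p (b - f) x + 2 ^ f * C.P p j x' + (a + 2 ^ f * κ + g) ≡ n
      [MOD 2 ^ (f + j)]) with hF
  refine cut_P_core C hfb hok' ha hk hbK hK' (fun x hx => pcode_lt hP hx) F ?_ ?_
  · intro s hs x hx he
    rw [hF, mem_filter]
    refine ⟨hx, ?_⟩
    have h4 := (mem_zcons.mp hs).1.2
    obtain ⟨x', hx', e⟩ := hrep s.2 h4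
    refine ⟨x', hx', ?_⟩
    have h5 := zcons_modEq (Z := zreg C (.P p f b) a κ) hbK hK' hs
      (show f + j ≤ b by omega) hj
    have h6 : 2 ^ f * ((C.P p (b - f) x + κ) % 2 ^ (b - f)) ≡ 2 ^ f * (C.P p (b - f) x + κ)
        [MOD 2 ^ (f + j)] := mul_mod_pow_modEq.of_dvd (pow_dvd_pow 2 (by omega))
    rw [he] at h5
    refine Nat.ModEq.trans ?_ (((h6.add_left a).add e).symm.trans h5)
    have e1 : 2 ^ f * C.P p (b - f) x + 2 ^ f * C.P p j x' + (a + 2 ^ f * κ + g) =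
      a + 2 ^ f * (C.P p (b - f) x + κ) + (g + 2 ^ f * C.P p j x') := by ring
    rw [e1]
  · intro t
    -- the class of the product
    rcases F.eq_empty_or_nonempty with h0 | ⟨x₀, hx₀⟩
    · rw [h0]; simp
    obtain ⟨hx₀X, x₀', hx₀', e₀⟩ := mem_filter.mp hx₀
    obtain ⟨G, hG⟩ := zP_fst (c := 2 ^ f * C.P p (b - f) x₀ + 2 ^ f * C.P p j x₀') hP
      (show j ≤ b - f by omega) F (filter_subset _ _) (by
        intro x hx
        obtain ⟨_, x', hx', e⟩ := mem_filter.mp hx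
        exact ⟨x', hx', Nat.ModEq.add_right_cancel' _ (e.trans e₀.symm)⟩)
    refine (card_le_card ?_).trans (hcb.1 j k G t (by omega) hk)
    intro x hx
    rw [mem_filter] at hx
    rw [mem_filter]
    exact ⟨(mem_filter.mp hx.1).1, hG x hx.1, hx.2⟩

/-! ### `PT` regions -/

/-- digits of a value of a `PT` zone: the top digits of the part below the block -/
lemma div_PT {a f k l W D v : ℕ} (ha : a < 2 ^ f) (hk : k ≤ l)
    (h : (a + 2 ^ f * (D % 2 ^ (l + W))) / 2 ^ (f + k) = v) :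
    (D % 2 ^ l) / 2 ^ k = v % 2 ^ (l - k) ∧ (D % 2 ^ (l + W)) / 2 ^ l = v / 2 ^ (l - k) := by
  rw [div_P ha] at h
  have hl : 2 ^ l = 2 ^ k * 2 ^ (l - k) := by rw [← pow_add]; congr 1; omega
  constructor
  · rw [← h]
    have e1 : D % 2 ^ l = (D % 2 ^ (l + W)) % 2 ^ l :=
      (Nat.mod_mod_of_dvd _ (pow_dvd_pow 2 (by omega))).symm
    rw [e1, hl, Nat.mod_mul_right_div_self]
  · rw [← h, Nat.div_div_eq_div_mul, ← hl]

open Classical in
/-- a `PT` region containing `K' ≤ b` -/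
theorem cut_PT_core (C : Codes) {p e f b a κ k K n B : ℕ} {Z' : Zone}
    (hP : PCode (C.X p) (C.P p)) (hfb : f ≤ b)
    (hok' : Zone.Ok Z') (ha : a < 2 ^ f) (hk : k ≤ b - f) (hbK : b + C.W e ≤ K)
    (hK' : Z'.top ≤ f + k)
    (F : Finset ℕ)
    (hF : ∀ s ∈ zcons K (f + k) n (zreg C (.PT p e f b) a κ) Z', ∀ x ∈ C.X p (b - f), ∀ t,
      s.1 = a + 2 ^ f * ((C.P p (b + C.W e - f) x + 2 ^ (b - f) * t + κ) %
        2 ^ (b + C.W e - f)) → x ∈ F)
    (hB : ∀ t, (F.filter (fun x => C.P p (b - f) x / 2 ^ k = t)).card ≤ B) :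
    (zcons K (f + k) n (zreg C (.PT p e f b) a κ) Z').card ≤ 8 * B := by
  classical
  have hok : Zone.Ok (zreg C (.PT p e f b) a κ) := zreg_ok C _ (by
    simp only [Reg.bot, Reg.top]; omega) ha
  have hcut := fun s (hs : s ∈ zcons K (f + k) n (zreg C (.PT p e f b) a κ) Z') =>
    zcons_cut hok hok' hbK hK' (show f + k ≤ b + C.W e by omega) hs
  set v₁ := ((n + 2 ^ (zreg C (.PT p e f b) a κ).top - 2 ^ (f + k)) %
    2 ^ (zreg C (.PT p e f b) a κ).top) / 2 ^ (f + k) with hv₁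
  set v₂ := (v₁ + 2 ^ ((zreg C (.PT p e f b) a κ).top - (f + k)) - 1) %
      2 ^ ((zreg C (.PT p e f b) a κ).top - (f + k)) with hv₂
  set l := b - f with hl
  have hlW : b + C.W e - f = l + C.W e := by omega
  obtain ⟨t₁, t₂, h12⟩ := shift_top (κ := κ) (v := v₁ % 2 ^ (l - k)) hk
  obtain ⟨t₃, t₄, h34⟩ := shift_top (κ := κ) (v := v₂ % 2 ^ (l - k)) hk
  set F' := F.filter (fun x => C.P p l x / 2 ^ k = t₁ ∨ C.P p l x / 2 ^ k = t₂ ∨
    C.P p l x / 2 ^ k = t₃ ∨ C.P p l x / 2 ^ k = t₄) with hF'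
  have hF'card : F'.card ≤ 4 * B := by
    refine card_four (G := fun x => C.P p l x / 2 ^ k) (t₁ := t₁) (t₂ := t₂) (t₃ := t₃)
      (t₄ := t₄) (fun x hx => (mem_filter.mp hx).2) (fun t => ?_)
    refine (card_le_card ?_).trans (hB t)
    exact filter_subset_filter _ (filter_subset _ _)
  -- a pair is determined by `x` and the choice between `v₁` and `v₂`
  have hrep : ∀ s ∈ zcons K (f + k) n (zreg C (.PT p e f b) a κ) Z', ∃ q ∈ F' ×ˢ range 2,
      ∃ t ∈ C.T e, s.1 = a + 2 ^ f * ((C.P p (l + C.W e) q.1 + 2 ^ l * t + κ) %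
        2 ^ (l + C.W e)) ∧
      ((C.P p (l + C.W e) q.1 + 2 ^ l * t + κ) % 2 ^ (l + C.W e)) / 2 ^ l =
        (if q.2 = 0 then v₁ else v₂) / 2 ^ (l - k) := by
    intro s hs
    have h4 := (mem_zcons.mp hs).1.1
    unfold zreg at h4
    simp only [mem_image, Reg.V, Reg.bot, Reg.c, Reg.top] at h4
    obtain ⟨q, hq, he⟩ := h4
    rw [mem_pairs] at hq
    set x := (Nat.unpair q).1 with hx
    set t := (Nat.unpair q).2 with ht
    have hxF := hF s hs x hq.1 t he.symm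
    have h5 := hcut s hs
    rw [← he] at h5
    rw [hlW] at h5 he
    have h6 : C.P p l x < 2 ^ l := pcode_lt hP hq.1
    have h7 : (C.P p (l + C.W e) x + 2 ^ l * t + κ) % 2 ^ l = (C.P p l x + κ) % 2 ^ l := by
      have a1 : C.P p (l + C.W e) x ≡ C.P p l x [MOD 2 ^ l] := by
        rw [← hP.res (l + C.W e) l l (by omega) x hq.1]
        exact (Nat.mod_modEq _ _).symm
      have a2 : 2 ^ l * t ≡ 0 [MOD 2 ^ l] := Nat.modEq_zero_iff_dvd.mpr (Dvd.intro _ rfl)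
      have a3 := (a1.add a2).add_right κ
      rw [add_zero] at a3
      exact a3
    rcases h5 with h5 | h5
    · obtain ⟨h8, h9⟩ := div_PT ha hk h5
      rw [h7] at h8
      refine ⟨(x, 0), ?_, t, hq.2, he.symm, ?_⟩
      · rw [mem_product]
        refine ⟨?_, by simp⟩
        rw [hF', mem_filter]
        refine ⟨hxF, ?_⟩
        rcases h12 _ h6 h8 with h | h
        · exact Or.inl h
        · exact Or.inr (Or.inl h)
      · simpa using h9
    · obtain ⟨h8, h9⟩ := div_PT ha hk h5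
      rw [h7] at h8
      refine ⟨(x, 1), ?_, t, hq.2, he.symm, ?_⟩
      · rw [mem_product]
        refine ⟨?_, by simp⟩
        rw [hF', mem_filter]
        refine ⟨hxF, ?_⟩
        rcases h34 _ h6 h8 with h | h
        · exact Or.inr (Or.inr (Or.inl h))
        · exact Or.inr (Or.inr (Or.inr h))
      · simpa using h9
  choose! q hq t ht hst hdiv using hrep
  have hcard : (zcons K (f + k) n (zreg C (.PT p e f b) a κ) Z').card ≤ (F' ×ˢ range 2).card := by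
    refine Finset.card_le_card_of_injOn q (fun s hs => hq s hs) ?_
    intro s hs s' hs' he
    have hs0 := mem_coe.mp hs
    have hs0' := mem_coe.mp hs'
    have e1 := hdiv s hs0
    have e2 := hdiv s' hs0'
    have e3 := hst s hs0
    have e4 := hst s' hs0'
    rw [he] at e1 e3
    -- equal block digits
    have e5 : (C.P p (l + C.W e) (q s').1 + 2 ^ l * t s + κ) % 2 ^ (l + C.W e) =
        (C.P p (l + C.W e) (q s').1 + 2 ^ l * t s' + κ) % 2 ^ (l + C.W e) := by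
      set D := (C.P p (l + C.W e) (q s').1 + 2 ^ l * t s + κ) % 2 ^ (l + C.W e) with hD
      set D' := (C.P p (l + C.W e) (q s').1 + 2 ^ l * t s' + κ) % 2 ^ (l + C.W e) with hD'
      have g1 : D / 2 ^ l = D' / 2 ^ l := by rw [e1, e2]
      have g2 : D % 2 ^ l = D' % 2 ^ l := by
        rw [hD, hD', Nat.mod_mod_of_dvd _ (pow_dvd_pow 2 (by omega)),
          Nat.mod_mod_of_dvd _ (pow_dvd_pow 2 (by omega))]
        have a2 : ∀ u, 2 ^ l * u ≡ 0 [MOD 2 ^ l] := fun u =>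
          Nat.modEq_zero_iff_dvd.mpr (Dvd.intro _ rfl)
        exact (((a2 (t s)).trans (a2 (t s')).symm).add_left _).add_right κ
      rw [← Nat.div_add_mod D (2 ^ l), ← Nat.div_add_mod D' (2 ^ l), g1, g2]
    have e6 : s.1 = s'.1 := by rw [e3, e4, e5]
    have h1 := zcons_subset_pmod (m := Z'.top) hbK hK' (show Z'.top ≤ b + C.W e by omega) le_rfl hs0
    have h2 := zcons_subset_pmod (m := Z'.top) hbK hK' (show Z'.top ≤ b + C.W e by omega) le_rfl hs0'
    rw [mem_pmod] at h1 h2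
    have f1 := h1.2
    rw [e6] at f1
    have f2 := Nat.ModEq.add_left_cancel' _ (f1.trans h2.2.symm)
    exact Prod.ext e6 (f2.eq_of_lt_of_lt (hok' _ h1.1.2) (hok' _ h2.1.2))
  refine hcard.trans ?_
  rw [card_product, card_range]
  omega

/-- (CUT), `PT` against any zone of `a'` with known digits below `f + j` -/
theorem cut_PT_FB (C : Codes) {p e f b a κ j k K n r₀ E : ℕ} {Z' : Zone}
    (hP : PCode (C.X p) (C.P p)) (hcb : CutBd (C.X p) (C.P p) (b - f) E) (hfb : f ≤ b)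
    (hok' : Zone.Ok Z') (hlow : Zone.Low Z' (f + j) r₀) (ha : a < 2 ^ f) (hk : k ≤ b - f)
    (hbK : b + C.W e ≤ K) (hK' : Z'.top ≤ f + k) (hj : f + j ≤ Z'.top) :
    (zcons K (f + k) n (zreg C (.PT p e f b) a κ) Z').card ≤
      8 * (2 ^ E * (1 + (2 ^ ((b - f + 1) / 2 - j) + 1) / 2 ^ (b - f - k))) := by
  classical
  obtain ⟨r₁, hr₁⟩ := zcons_low (n := n) (Z := zreg C (.PT p e f b) a κ) (K := K) hbK hK' hlow
    (show f + j ≤ b + C.W e by omega) hj
  obtain ⟨c, hc⟩ := zPT_low (e := e) (κ := κ) (a := a) (r₀ := r₁) C hP (show f + j ≤ b by omega)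
  refine cut_PT_core C hP hfb hok' ha hk hbK hK' (FBs (C.X p) (b - f) j c) ?_ ?_
  · intro s hs x hx t he
    have h3 := hr₁ s hs
    rw [he] at h3
    exact hc x hx t h3
  · intro t
    refine (card_le_card ?_).trans (hcb.2 j k c t (by omega) hk)
    intro x hx
    unfold FBs at hx
    simp only [mem_filter] at hx ⊢
    exact ⟨hx.1.1, hx.1.2, hx.2⟩

/-- (CUT), `PT` against a `P` type zone of `a'` with the same bottom and the same code -/
theorem cut_PT_FA (C : Codes) {p e f b a κ j k K n g E : ℕ} {Z' : Zone}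
    (hP : PCode (C.X p) (C.P p)) (hcb : CutBd (C.X p) (C.P p) (b - f) E) (hfb : f ≤ b)
    (hok' : Zone.Ok Z') (hrep : PRep (C.X p) (C.P p) f j g Z'.S) (ha : a < 2 ^ f)
    (hk : k ≤ b - f) (hbK : b + C.W e ≤ K) (hK' : Z'.top ≤ f + k) (hj : f + j ≤ Z'.top) :
    (zcons K (f + k) n (zreg C (.PT p e f b) a κ) Z').card ≤
      8 * (2 ^ E * (1 + 2 ^ ((b - f - j) / 2 + 4) / 2 ^ (b - f - k))) := by
  classical
  set l := b - f with hl
  have hlW : b + C.W e - f = l + C.W e := by omega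
  set F := (C.X p l).filter (fun x => ∃ x' ∈ C.X p j,
    2 ^ f * C.P p l x + 2 ^ f * C.P p j x' + (a + 2 ^ f * κ + g) ≡ n [MOD 2 ^ (f + j)]) with hF
  refine cut_PT_core C hP hfb hok' ha hk hbK hK' F ?_ ?_
  · intro s hs x hx t he
    rw [hF, mem_filter]
    refine ⟨hx, ?_⟩
    have h4 := (mem_zcons.mp hs).1.2
    obtain ⟨x', hx', e1⟩ := hrep s.2 h4
    refine ⟨x', hx', ?_⟩
    have h5 := zcons_modEq (Z := zreg C (.PT p e f b) a κ) hbK hK' hs
      (show f + j ≤ b + C.W e by omega) hj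
    rw [hlW] at he
    have h6 : 2 ^ f * ((C.P p (l + C.W e) x + 2 ^ l * t + κ) % 2 ^ (l + C.W e)) ≡
        2 ^ f * (C.P p l x + κ) [MOD 2 ^ (f + j)] := by
      have a0 : 2 ^ f * ((C.P p (l + C.W e) x + 2 ^ l * t + κ) % 2 ^ (l + C.W e)) ≡
          2 ^ f * (C.P p (l + C.W e) x + 2 ^ l * t + κ) [MOD 2 ^ (f + j)] :=
        mul_mod_pow_modEq.of_dvd (pow_dvd_pow 2 (by omega))
      refine a0.trans ?_
      rw [pow_add 2 f j]
      refine Nat.ModEq.mul_left' _ ?_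
      have a1 : C.P p (l + C.W e) x ≡ C.P p l x [MOD 2 ^ j] := by
        refine Nat.ModEq.of_dvd (pow_dvd_pow 2 (show j ≤ l by omega)) ?_
        rw [← hP.res (l + C.W e) l l (by omega) x hx]
        exact (Nat.mod_modEq _ _).symm
      have a2 : 2 ^ l * t ≡ 0 [MOD 2 ^ j] :=
        Nat.modEq_zero_iff_dvd.mpr (Dvd.dvd.mul_right (pow_dvd_pow 2 (by omega)) _)
      have a3 := (a1.add a2).add_right κ
      rw [add_zero] at a3
      exact a3
    rw [he] at h5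
    refine Nat.ModEq.trans ?_ (((h6.add_left a).add e1).symm.trans h5)
    have e2 : 2 ^ f * C.P p l x + 2 ^ f * C.P p j x' + (a + 2 ^ f * κ + g) =
      a + 2 ^ f * (C.P p l x + κ) + (g + 2 ^ f * C.P p j x') := by ring
    rw [e2]
  · intro t
    rcases F.eq_empty_or_nonempty with h0 | ⟨x₀, hx₀⟩
    · rw [h0]; simp
    obtain ⟨hx₀X, x₀', hx₀', e₀⟩ := mem_filter.mp hx₀
    obtain ⟨G, hG⟩ := zP_fst (c := 2 ^ f * C.P p l x₀ + 2 ^ f * C.P p j x₀') hP
      (show j ≤ l by omega) F (filter_subset _ _) (by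
        intro x hx
        obtain ⟨_, x', hx', e⟩ := mem_filter.mp hx
        exact ⟨x', hx', Nat.ModEq.add_right_cancel' _ (e.trans e₀.symm)⟩)
    refine (card_le_card ?_).trans (hcb.1 j k G t (by omega) hk)
    intro x hx
    rw [mem_filter] at hx
    rw [mem_filter]
    exact ⟨(mem_filter.mp hx.1).1, hG x hx.1, hx.2⟩

/-! ### no information on the low digits -/

lemma card_all_top {X : ℕ → Finset ℕ} {P : ℕ → ℕ → ℕ} (hP : PCode X P) {l E k t : ℕ}
    (hcb : CutBd X P l E) (hk : k ≤ l) :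
    ((X l).filter (fun x => P l x / 2 ^ k = t)).card ≤
      2 * (2 ^ E * (1 + (2 ^ ((l + 1) / 2) + 1) / 2 ^ (l - k))) := by
  classical
  have h1 := hcb.2 0 k 1 t (Nat.zero_le _) hk
  have h3 := hcb.2 0 k 3 t (Nat.zero_le _) hk
  have hsub : (X l).filter (fun x => P l x / 2 ^ k = t) ⊆
      (X l).filter (fun x => x % 2 ^ (0 + 2) = 1 ∧ P l x / 2 ^ k = t) ∪
      (X l).filter (fun x => x % 2 ^ (0 + 2) = 3 ∧ P l x / 2 ^ k = t) := by
    intro x hx
    rw [mem_filter] at hx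
    rw [mem_union, mem_filter, mem_filter]
    have hodd := hP.odd l x hx.1
    have : x % 2 ^ (0 + 2) = 1 ∨ x % 2 ^ (0 + 2) = 3 := by norm_num; omega
    rcases this with h | h
    · exact Or.inl ⟨hx.1, h, hx.2⟩
    · exact Or.inr ⟨hx.1, h, hx.2⟩
  refine (card_le_card hsub).trans ((card_union_le _ _).trans ?_)
  rw [Nat.sub_zero] at h1 h3
  omega

/-- (CUT), `P` against any zone -/
theorem cut_P_all (C : Codes) {p f b a κ k K n E : ℕ} {Z' : Zone}
    (hP : PCode (C.X p) (C.P p)) (hcb : CutBd (C.X p) (C.P p) (b - f) E) (hfb : f ≤ b)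
    (hok' : Zone.Ok Z') (ha : a < 2 ^ f) (hk : k ≤ b - f)
    (hbK : b ≤ K) (hK' : Z'.top ≤ f + k) :
    (zcons K (f + k) n (zreg C (.P p f b) a κ) Z').card ≤
      8 * (2 ^ E * (1 + (2 ^ ((b - f + 1) / 2) + 1) / 2 ^ (b - f - k))) := by
  classical
  have h := cut_P_core (n := n) (κ := κ) C hfb hok' ha hk hbK hK' (fun x hx => pcode_lt hP hx)
    (C.X p (b - f)) (fun s _ x hx _ => hx) (fun t => card_all_top hP hcb hk)
  refine h.trans (le_of_eq ?_)
  ring

/-- (CUT), `PT` against any zone -/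
theorem cut_PT_all (C : Codes) {p e f b a κ k K n E : ℕ} {Z' : Zone}
    (hP : PCode (C.X p) (C.P p)) (hcb : CutBd (C.X p) (C.P p) (b - f) E) (hfb : f ≤ b)
    (hok' : Zone.Ok Z') (ha : a < 2 ^ f) (hk : k ≤ b - f)
    (hbK : b + C.W e ≤ K) (hK' : Z'.top ≤ f + k) :
    (zcons K (f + k) n (zreg C (.PT p e f b) a κ) Z').card ≤
      16 * (2 ^ E * (1 + (2 ^ ((b - f + 1) / 2) + 1) / 2 ^ (b - f - k))) := by
  classical
  have h := cut_PT_core (n := n) (κ := κ) C hP hfb hok' ha hk hbK hK'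
    (C.X p (b - f)) (fun s _ x hx _ _ => hx) (fun t => card_all_top hP hcb hk)
  refine h.trans (le_of_eq ?_)
  ring

end Pool.Agent.Helper5.ETP
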