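import Mathlib
import Pool.Agent.Helper5.ETP.CutP
import Pool.Agent.Helper86.ET.Q6

/-!
# E-T (MP_12a1af_nt), project T*: zones of `R` type containing the scale `K'`
-/

set_option autoImplicit false

open Finset

namespace Pool.Agent.Helper5.ETP

open Pool.Agent.ETS
open Pool.Agent.ETS.RC (Yq Rc RBase card_cut_q card_Yq_le)

/-- numbers: the count of `card_cut_q` in powers of two -/
lemma cut_num {l h w k : ℕ} {X : ℝ} (h2 : 2 * h + w ≤ l) (hw : 2 ∣ w)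
    (hX : X ≤ 2 * (1 + 2 ^ h * (((2 ^ k : ℕ) + 2 ^ w + 1) / 2 ^ l))) :
    X * 2 ^ (w / 2) ≤ 8 * 2 ^ (max (w / 2) (k - (l - h - w / 2))) := by
  have hl : (0:ℝ) < 2 ^ l := by positivity
  have hM1 : (2:ℝ) ^ (w / 2) ≤ 2 ^ (max (w / 2) (k - (l - h - w / 2))) :=
    pow_le_pow_right₀ (by norm_num) (le_max_left _ _)
  have hM2 : (2:ℝ) ^ (k - (l - h - w / 2)) ≤ 2 ^ (max (w / 2) (k - (l - h - w / 2))) :=
    pow_le_pow_right₀ (by norm_num) (le_max_right _ _)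
  -- the main term
  have h1 : (2:ℝ) ^ h * 2 ^ k / 2 ^ l * 2 ^ (w / 2) ≤ 2 ^ (k - (l - h - w / 2)) := by
    rw [div_mul_eq_mul_div, div_le_iff₀ hl, ← pow_add, ← pow_add, ← pow_add]
    exact pow_le_pow_right₀ (by norm_num) (by omega)
  -- the block
  have h3 : (2:ℝ) ^ h * 2 ^ w / 2 ^ l ≤ 1 := by
    rw [div_le_one hl, ← pow_add]
    exact pow_le_pow_right₀ (by norm_num) (by omega)
  have h4 : (2:ℝ) ^ h * 1 / 2 ^ l ≤ 1 := by
    rw [div_le_one hl, mul_one]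
    exact pow_le_pow_right₀ (by norm_num) (by omega)
  have hw0 : (0:ℝ) ≤ 2 ^ (w / 2) := by positivity
  have h5 : X * 2 ^ (w / 2) ≤ 2 * (1 + 2 ^ h * (((2 ^ k : ℕ) + 2 ^ w + 1) / 2 ^ l)) * 2 ^ (w / 2) :=
    mul_le_mul_of_nonneg_right hX hw0
  have h6 : 2 * (1 + (2:ℝ) ^ h * (((2 ^ k : ℕ) + 2 ^ w + 1) / 2 ^ l)) * 2 ^ (w / 2) =
      2 * 2 ^ (w / 2) + 2 * ((2:ℝ) ^ h * 2 ^ k / 2 ^ l * 2 ^ (w / 2)) +
      2 * ((2:ℝ) ^ h * 2 ^ w / 2 ^ l) * 2 ^ (w / 2) + 2 * ((2:ℝ) ^ h * 1 / 2 ^ l) * 2 ^ (w / 2) := by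
    push_cast
    ring
  have h7 : 2 * ((2:ℝ) ^ h * 2 ^ w / 2 ^ l) * 2 ^ (w / 2) ≤ 2 * 2 ^ (w / 2) := by
    nlinarith
  have h8 : 2 * ((2:ℝ) ^ h * 1 / 2 ^ l) * 2 ^ (w / 2) ≤ 2 * 2 ^ (w / 2) := by
    nlinarith
  linarith

open Classical in
/-- variables `y` whose content, with a block below `2 ^ w`, has one of two given top digits -/
lemma cut_Y {h l k w κ v₁ v₂ : ℕ} (D : Finset ℕ)
    (hD : ∀ y ∈ D, y ∈ Yq h ∧ ∃ t, t < 2 ^ w ∧
      ((((Rc l y % 2 ^ l) + t + κ) % 2 ^ l) / 2 ^ k = v₁ ∨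
       (((Rc l y % 2 ^ l) + t + κ) % 2 ^ l) / 2 ^ k = v₂)) :
    (D.card : ℝ) ≤ 2 * (2 * (1 + 2 ^ h * (((2 ^ k : ℕ) + 2 ^ w + 1) / 2 ^ l))) := by
  classical
  set P : ℕ → ℕ → Prop := fun u y => ∃ t, t < 2 ^ w ∧
    (((Rc l y % 2 ^ l) + t + κ) % 2 ^ l) / 2 ^ k = u with hP
  have hone : ∀ u, ((D.filter (P u)).card : ℝ) ≤
      2 * (1 + 2 ^ h * (((2 ^ k : ℕ) + 2 ^ w + 1) / 2 ^ l)) := by
    intro u
    have := card_cut_q (l := l) (h := h) (κ := κ) (ρ := u * 2 ^ k) (L := 2 ^ k) (w := w)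
      (D.filter (P u)) ?_
    · exact this
    · intro y hy
      rw [mem_filter] at hy
      obtain ⟨hyD, t, ht, hu⟩ := hy
      refine ⟨(hD y hyD).1, t, (((Rc l y % 2 ^ l) + t + κ) % 2 ^ l) % 2 ^ k, ht,
        (Nat.mod_lt _ (by positivity)).le, ?_⟩
      have h1 := Nat.div_add_mod ((((Rc l y % 2 ^ l) + t + κ) % 2 ^ l)) (2 ^ k)
      rw [hu, mul_comm] at h1
      rw [h1]
      have a1 : Rc l y + t + κ ≡ (Rc l y % 2 ^ l) + t + κ [MOD 2 ^ l] :=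
        ((Nat.mod_modEq _ _).symm.add_right t).add_right κ
      exact a1.trans (Nat.mod_modEq _ _).symm
  have hsub : D ⊆ D.filter (P v₁) ∪ D.filter (P v₂) := by
    intro y hy
    obtain ⟨_, t, ht, h⟩ := hD y hy
    rw [mem_union, mem_filter, mem_filter]
    rcases h with h | h
    · exact Or.inl ⟨hy, t, ht, h⟩
    · exact Or.inr ⟨hy, t, ht, h⟩
  have h1 := (card_le_card hsub).trans (card_union_le _ _)
  have h2 : (D.card : ℝ) ≤ (D.filter (P v₁)).card + (D.filter (P v₂)).card := by exact_mod_cast h1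
  have := hone v₁
  have := hone v₂
  linarith

/-- from the real bound to a bound of natural numbers -/
lemma nat_of_real16 {N m : ℕ} (h : (N : ℝ) ≤ 2 * (8 * 2 ^ m)) : N ≤ 16 * 2 ^ m := by
  have : ((N : ℕ) : ℝ) ≤ ((16 * 2 ^ m : ℕ) : ℝ) := by
    push_cast; linarith
  exact_mod_cast this

/-- (CUT), plain `R` region -/
theorem cut_R (C : Codes) {e b v a κ k K n : ℕ} {Z' : Zone} (hR : RBase C e) (hbv : b ≤ v)
    (hok' : Zone.Ok Z') (ha : a < 2 ^ b) (hk : k ≤ v - b) (hvK : v ≤ K) (hK' : Z'.top ≤ b + k) :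
    (zcons K (b + k) n (zreg C (.R b v) a κ) Z').card ≤ 16 * 2 ^ (k - ((v - b) - (v - b) / 2)) := by
  classical
  have hok : Zone.Ok (zreg C (.R b v) a κ) := zreg_ok C _ hbv ha
  have hcut := fun s (hs : s ∈ zcons K (b + k) n (zreg C (.R b v) a κ) Z') =>
    zcons_cut hok hok' hvK hK' (show b + k ≤ v by omega) hs
  set v₁ := ((n + 2 ^ (zreg C (.R b v) a κ).top - 2 ^ (b + k)) %
    2 ^ (zreg C (.R b v) a κ).top) / 2 ^ (b + k) with hv₁
  set v₂ := (v₁ + 2 ^ ((zreg C (.R b v) a κ).top - (b + k)) - 1) %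
      2 ^ ((zreg C (.R b v) a κ).top - (b + k)) with hv₂
  set l := v - b with hl
  set D := (C.Y l).filter (fun y => ((C.E l y + κ) % 2 ^ l) / 2 ^ k = v₁ ∨
    ((C.E l y + κ) % 2 ^ l) / 2 ^ k = v₂) with hD
  have h1 : (zcons K (b + k) n (zreg C (.R b v) a κ) Z').card ≤ D.card := by
    refine (zcons_le_of_fst hok' hvK hK' (show Z'.top ≤ v by omega) (D.image
      (fun y => a + 2 ^ b * ((C.E l y + κ) % 2 ^ l))) ?_).trans card_image_le
    intro s hs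
    have h4 := (mem_zcons.mp hs).1.1
    unfold zreg at h4
    simp only [mem_image, Reg.V, Reg.bot, Reg.c, Reg.top] at h4
    obtain ⟨y, hy, he⟩ := h4
    rw [mem_image]
    refine ⟨y, ?_, he⟩
    rw [hD, mem_filter]
    refine ⟨hy, ?_⟩
    have h5 := hcut s hs
    rw [← he, div_P ha] at h5
    exact h5
  have h2 : (D.card : ℝ) ≤ 2 * (2 * (1 + 2 ^ (l / 2) * (((2 ^ k : ℕ) + 2 ^ 0 + 1) / 2 ^ l))) := by
    refine cut_Y (κ := κ) (v₁ := v₁) (v₂ := v₂) D ?_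
    intro y hy
    rw [hD, mem_filter, hR.hY l] at hy
    refine ⟨hy.1, 0, by norm_num, ?_⟩
    rw [← hR.hE l y, add_zero]
    exact hy.2
  have h3 := cut_num (l := l) (h := l / 2) (w := 0) (k := k)
    (X := (D.card : ℝ) / 2) (by omega) (by norm_num) (by linarith)
  have h4 : (0:ℕ) / 2 = 0 := by norm_num
  rw [h4, pow_zero, mul_one, Nat.zero_max, Nat.sub_zero] at h3
  refine h1.trans (nat_of_real16 ?_)
  linarith

/-- (CUT), `R` region with a block in a set `S` of at most `2 ^ (W / 2)` elements -/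
lemma cut_block (C : Codes) {e b v a κ k K n : ℕ} {Z Z' : Zone} (S : Finset ℕ) (hR : RBase C e)
    (hS : ∀ t ∈ S, t < 2 ^ C.W e) (hSc : S.card ≤ 2 ^ (C.W e / 2)) (hbv : b + C.W e ≤ v)
    (htop : Z.top = v) (hZ : ∀ s ∈ Z.S, ∃ q ∈ pairs (C.Y (v - b - C.W e)) S,
      a + 2 ^ b * ((C.E (v - b) (Nat.unpair q).1 + (Nat.unpair q).2 + κ) % 2 ^ (v - b)) = s)
    (hok : Zone.Ok Z)
    (hok' : Zone.Ok Z') (ha : a < 2 ^ b) (hk : k ≤ v - b) (hvK : v ≤ K) (hK' : Z'.top ≤ b + k) :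
    (zcons K (b + k) n Z Z').card ≤
      16 * 2 ^ (max (C.W e / 2) (k - ((v - b) - (v - b) / 2))) := by
  classical
  have hcut := fun s (hs : s ∈ zcons K (b + k) n Z Z') =>
    zcons_cut hok hok' (show Z.top ≤ K by omega) hK' (show b + k ≤ Z.top by omega) hs
  set v₁ := ((n + 2 ^ Z.top - 2 ^ (b + k)) % 2 ^ Z.top) / 2 ^ (b + k) with hv₁
  set v₂ := (v₁ + 2 ^ (Z.top - (b + k)) - 1) % 2 ^ (Z.top - (b + k)) with hv₂
  set l := v - b with hl
  set W := C.W e with hW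
  set D := (C.Y (l - W)).filter (fun y => ∃ t ∈ S, ((C.E l y + t + κ) % 2 ^ l) / 2 ^ k = v₁ ∨
    ((C.E l y + t + κ) % 2 ^ l) / 2 ^ k = v₂) with hD
  have h1 : (zcons K (b + k) n Z Z').card ≤ (D ×ˢ S).card := by
    refine (zcons_le_of_fst hok' (by omega) hK' (show Z'.top ≤ Z.top by omega) ((D ×ˢ S).image
      (fun q => a + 2 ^ b * ((C.E l q.1 + q.2 + κ) % 2 ^ l))) ?_).trans card_image_le
    intro s hs
    have h4 := (mem_zcons.mp hs).1.1
    obtain ⟨q, hq, he⟩ := hZ _ h4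
    rw [mem_pairs] at hq
    rw [mem_image]
    refine ⟨((Nat.unpair q).1, (Nat.unpair q).2), ?_, he⟩
    rw [mem_product, hD, mem_filter]
    refine ⟨⟨hq.1, (Nat.unpair q).2, hq.2, ?_⟩, hq.2⟩
    have h5 := hcut s hs
    rw [← he, div_P ha] at h5
    exact h5
  have h2 : (D.card : ℝ) ≤ 2 * (2 * (1 + 2 ^ ((l - W) / 2) * (((2 ^ k : ℕ) + 2 ^ W + 1) / 2 ^ l))) := by
    refine cut_Y (κ := κ) (v₁ := v₁) (v₂ := v₂) D ?_
    intro y hy
    rw [hD, mem_filter, hR.hY (l - W)] at hy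
    obtain ⟨hy1, t, ht, h⟩ := hy
    refine ⟨hy1, t, hS t ht, ?_⟩
    rw [← hR.hE l y]
    exact h
  have hW2 : 2 ∣ W := hR.hW
  have h3 := cut_num (l := l) (h := (l - W) / 2) (w := W) (k := k)
    (X := (D.card : ℝ) / 2) (by omega) hW2 (by linarith)
  have h4 : l - (l - W) / 2 - W / 2 = l - l / 2 := by omega
  rw [h4] at h3
  refine h1.trans (nat_of_real16 ?_)
  rw [card_product]
  push_cast
  have h5 : (S.card : ℝ) ≤ 2 ^ (W / 2) := by exact_mod_cast hSc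
  have h6 : (D.card : ℝ) * S.card ≤ D.card * 2 ^ (W / 2) :=
    mul_le_mul_of_nonneg_left h5 (Nat.cast_nonneg _)
  linarith

/-- (CUT), `RT` region -/
theorem cut_RT (C : Codes) {e b v a κ k K n : ℕ} {Z' : Zone} (hR : RBase C e)
    (hbv : b + C.W e ≤ v) (hok' : Zone.Ok Z') (ha : a < 2 ^ b) (hk : k ≤ v - b) (hvK : v ≤ K)
    (hK' : Z'.top ≤ b + k) :
    (zcons K (b + k) n (zreg C (.RT e b v) a κ) Z').card ≤
      16 * 2 ^ (max (C.W e / 2) (k - ((v - b) - (v - b) / 2))) := by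
  refine cut_block (κ := κ) C (C.T e) hR hR.hT hR.cT hbv rfl ?_
    (zreg_ok C _ (show b ≤ v by omega) ha) hok' ha hk hvK hK'
  intro s hs
  unfold zreg at hs
  simp only [mem_image, Reg.V, Reg.bot, Reg.c, Reg.top] at hs
  exact hs

/-- (CUT), `RTh` region -/
theorem cut_RTh (C : Codes) {e b v a κ k K n : ℕ} {Z' : Zone} (hR : RBase C e)
    (hbv : b + C.W e ≤ v) (hok' : Zone.Ok Z') (ha : a < 2 ^ b) (hk : k ≤ v - b) (hvK : v ≤ K)
    (hK' : Z'.top ≤ b + k) :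
    (zcons K (b + k) n (zreg C (.RTh e b v) a κ) Z').card ≤
      16 * 2 ^ (max (C.W e / 2) (k - ((v - b) - (v - b) / 2))) := by
  refine cut_block (κ := κ) C (C.Th e) hR hR.hTh hR.cTh hbv rfl ?_
    (zreg_ok C _ (show b ≤ v by omega) ha) hok' ha hk hvK hK'
  intro s hs
  unfold zreg at hs
  simp only [mem_image, Reg.V, Reg.bot, Reg.c, Reg.top] at hs
  exact hs

/-- top digits of a value of the zone above a `PT` region -/
lemma div_RS {a b W A D l k : ℕ} (ha : a < 2 ^ b) (hA : A < 2 ^ W) :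
    (a + 2 ^ b * A + 2 ^ (b + W) * (D % 2 ^ l)) / 2 ^ (b + W + k) = (D % 2 ^ l) / 2 ^ k := by
  refine div_P ?_
  rw [pow_add]
  calc a + 2 ^ b * A < 2 ^ b * 1 + 2 ^ b * A := by omega
    _ = 2 ^ b * (1 + A) := by ring
    _ ≤ _ := Nat.mul_le_mul_left _ (by omega)

/-- (CUT), zone above a `PT` region, `K' = b + W + k` -/
theorem cut_RS (C : Codes) {e b v a κ κ₂ k K n : ℕ} {Z' : Zone} (hR : RBase C e)
    (hbv : b + C.W e ≤ v) (hok' : Zone.Ok Z') (ha : a < 2 ^ b) (hk : k ≤ v - (b + C.W e))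
    (hvK : v ≤ K) (hK' : Z'.top ≤ b + C.W e + k) :
    (zcons K (b + C.W e + k) n (zRS C e b v a κ κ₂) Z').card ≤
      16 * 2 ^ (C.W e / 2 + (k - ((v - (b + C.W e)) - (v - (b + C.W e)) / 2))) := by
  classical
  have hok : Zone.Ok (zRS C e b v a κ κ₂) := zRS_ok C hbv ha
  have hcut := fun s (hs : s ∈ zcons K (b + C.W e + k) n (zRS C e b v a κ κ₂) Z') =>
    zcons_cut hok hok' hvK hK' (show b + C.W e + k ≤ v by omega) hs
  set v₁ := ((n + 2 ^ (zRS C e b v a κ κ₂).top - 2 ^ (b + C.W e + k)) %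
    2 ^ (zRS C e b v a κ κ₂).top) / 2 ^ (b + C.W e + k) with hv₁
  set v₂ := (v₁ + 2 ^ ((zRS C e b v a κ κ₂).top - (b + C.W e + k)) - 1) %
      2 ^ ((zRS C e b v a κ κ₂).top - (b + C.W e + k)) with hv₂
  set W := C.W e with hW
  set l := v - (b + W) with hl
  set D := (C.Y l).filter (fun y => ((C.E l y + κ₂) % 2 ^ l) / 2 ^ k = v₁ ∨
    ((C.E l y + κ₂) % 2 ^ l) / 2 ^ k = v₂) with hD
  have h1 : (zcons K (b + W + k) n (zRS C e b v a κ κ₂) Z').card ≤ (D ×ˢ C.T e).card := by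
    refine (zcons_le_of_fst hok' hvK hK' (show Z'.top ≤ v by omega) ((D ×ˢ C.T e).image
      (fun q => a + 2 ^ b * ((q.2 + κ) % 2 ^ W) +
        2 ^ (b + W) * ((C.E l q.1 + κ₂) % 2 ^ l))) ?_).trans card_image_le
    intro s hs
    have h4 := (mem_zcons.mp hs).1.1
    unfold zRS at h4
    simp only [mem_image] at h4
    obtain ⟨q, hq, he⟩ := h4
    rw [mem_pairs] at hq
    rw [mem_image]
    refine ⟨((Nat.unpair q).1, (Nat.unpair q).2), ?_, he⟩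
    rw [mem_product, hD, mem_filter]
    refine ⟨⟨hq.1, ?_⟩, hq.2⟩
    have h5 := hcut s hs
    rw [← he, div_RS ha (Nat.mod_lt _ (by positivity))] at h5
    exact h5
  have h2 : (D.card : ℝ) ≤ 2 * (2 * (1 + 2 ^ (l / 2) * (((2 ^ k : ℕ) + 2 ^ 0 + 1) / 2 ^ l))) := by
    refine cut_Y (κ := κ₂) (v₁ := v₁) (v₂ := v₂) D ?_
    intro y hy
    rw [hD, mem_filter, hR.hY l] at hy
    refine ⟨hy.1, 0, by norm_num, ?_⟩
    rw [← hR.hE l y, add_zero]
    exact hy.2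
  have h3 := cut_num (l := l) (h := l / 2) (w := 0) (k := k)
    (X := (D.card : ℝ) / 2) (by omega) (by norm_num) (by linarith)
  have h4 : (0:ℕ) / 2 = 0 := by norm_num
  rw [h4, pow_zero, mul_one, Nat.zero_max, Nat.sub_zero] at h3
  refine h1.trans (nat_of_real16 ?_)
  rw [card_product, pow_add]
  push_cast
  have h5 : ((C.T e).card : ℝ) ≤ 2 ^ (W / 2) := by exact_mod_cast hR.cT
  have h6 : (D.card : ℝ) * (C.T e).card ≤ (2 * (8 * 2 ^ (k - (l - l / 2)))) * 2 ^ (W / 2) :=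
    mul_le_mul (by linarith) h5 (Nat.cast_nonneg _) (by positivity)
  refine h6.trans (le_of_eq ?_)
  ring

/-! ### trivial bounds for the zones of `R` type -/

lemma zR_card (C : Codes) {e b v a κ : ℕ} (hR : RBase C e) :
    (zreg C (.R b v) a κ).S.card ≤ 2 ^ ((v - b) / 2) := by
  refine (zreg_card_le C _ a κ).trans ?_
  simp only [Reg.V]
  rw [hR.hY]
  exact card_Yq_le _

lemma zRT_card (C : Codes) {e b v a κ : ℕ} (hR : RBase C e) (hbv : b + C.W e ≤ v) :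
    (zreg C (.RT e b v) a κ).S.card ≤ 2 ^ ((v - b) / 2) := by
  refine (zreg_card_le C _ a κ).trans ?_
  simp only [Reg.V]
  rw [card_pairs, hR.hY]
  have h1 : 2 ^ ((v - b) / 2) = 2 ^ ((v - b - C.W e) / 2) * 2 ^ (C.W e / 2) := by
    rw [← pow_add]; congr 1
    have := hR.hW; omega
  rw [h1]
  exact Nat.mul_le_mul (card_Yq_le _) hR.cT

lemma zRTh_card (C : Codes) {e b v a κ : ℕ} (hR : RBase C e) (hbv : b + C.W e ≤ v) :
    (zreg C (.RTh e b v) a κ).S.card ≤ 2 ^ ((v - b) / 2) := by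
  refine (zreg_card_le C _ a κ).trans ?_
  simp only [Reg.V]
  rw [card_pairs, hR.hY]
  have h1 : 2 ^ ((v - b) / 2) = 2 ^ ((v - b - C.W e) / 2) * 2 ^ (C.W e / 2) := by
    rw [← pow_add]; congr 1
    have := hR.hW; omega
  rw [h1]
  exact Nat.mul_le_mul (card_Yq_le _) hR.cTh

lemma zRS_card' (C : Codes) {e b v a κ κ₂ : ℕ} (hR : RBase C e) (hbv : b + C.W e ≤ v) :
    (zRS C e b v a κ κ₂).S.card ≤ 2 ^ ((v - b) / 2) := by
  refine (zRS_card_le C e b v a κ κ₂).trans ?_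
  rw [hR.hY]
  have h1 : 2 ^ ((v - b) / 2) = 2 ^ ((v - (b + C.W e)) / 2) * 2 ^ (C.W e / 2) := by
    rw [← pow_add]; congr 1
    have := hR.hW; omega
  rw [h1]
  exact Nat.mul_le_mul (card_Yq_le _) hR.cT

end Pool.Agent.Helper5.ETP
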