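import Mathlib
import Pool.Agent.Helper5.ETP.Cross

/-!
# E-T (MP_12a1af_nt), project T*: P type zones against R type zones, final forms

`crossT`: any P type zone (`P` or `PT`, represented by `PRep`) against `RT`, `RTh` or the zone
above a `PT` region, the block being inside the known range of the P type zone.
`crossE`: `PT` against a zone with the block at the same place.
-/

open Finset

namespace Pool.Agent.Helper5.ETP

open Pool.Agent.ETS

lemma zRT_S (C : Codes) (e b v a κ : ℕ) : (zreg C (.RT e b v) a κ).S =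
    (pairs (C.Y (v - b - C.W e)) (C.T e)).image (fun q => (fun y t =>
      a + 2 ^ b * ((C.E (v - b) y + t + κ) % 2 ^ (v - b))) (Nat.unpair q).1 (Nat.unpair q).2) :=
  rfl

lemma zRTh_S (C : Codes) (e b v a κ : ℕ) : (zreg C (.RTh e b v) a κ).S =
    (pairs (C.Y (v - b - C.W e)) (C.Th e)).image (fun q => (fun y t =>
      a + 2 ^ b * ((C.E (v - b) y + t + κ) % 2 ^ (v - b))) (Nat.unpair q).1 (Nat.unpair q).2) :=
  rfl

lemma zRS_S (C : Codes) (e b v a κ κ₂ : ℕ) : (zRS C e b v a κ κ₂).S =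
    (pairs (C.Y (v - (b + C.W e))) (C.T e)).image (fun q => (fun y t =>
      a + 2 ^ b * ((t + κ) % 2 ^ C.W e) +
        2 ^ (b + C.W e) * ((C.E (v - (b + C.W e)) y + κ₂) % 2 ^ (v - (b + C.W e))))
      (Nat.unpair q).1 (Nat.unpair q).2) :=
  rfl

section general

variable {C : Codes} {X : ℕ → Finset ℕ} {P : ℕ → ℕ → ℕ} {l f q g m n B e b v κ κ₂ a : ℕ}
  {S : Finset ℕ}

/-- any P type zone against `RT` -/
theorem cross_RT (hS : PRep X P f l g S) (hlt : ∀ s ∈ S, s < 2 ^ m) (hm : f + l ≤ m)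
    (hq : q + C.W e ≤ l) (hb : b = f + q) (hv : m ≤ v) (hT : ∀ t ∈ C.T e, t < 2 ^ C.W e)
    (hB : QPB X P (C.W e) l q B (C.T e)) :
    (pmod m n S (zreg C (.RT e b v) a κ).S).card ≤ (C.Y (v - b - C.W e)).card * B := by
  classical
  rw [zRT_S]
  have := cross_core (n := n) (J := 1) (B := B) hlt (C.Y (v - b - C.W e)) (C.T e) (fun y t =>
      a + 2 ^ b * ((C.E (v - b) y + t + κ) % 2 ^ (v - b))) (fun y _ =>
        cross_block hS hm hq hb hv hT hB)
  simpa using this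

/-- any P type zone against `RTh` -/
theorem cross_RTh (hS : PRep X P f l g S) (hlt : ∀ s ∈ S, s < 2 ^ m) (hm : f + l ≤ m)
    (hq : q + C.W e ≤ l) (hb : b = f + q) (hv : m ≤ v) (hT : ∀ t ∈ C.Th e, t < 2 ^ C.W e)
    (hB : QPB X P (C.W e) l q B (C.Th e)) :
    (pmod m n S (zreg C (.RTh e b v) a κ).S).card ≤ (C.Y (v - b - C.W e)).card * B := by
  classical
  rw [zRTh_S]
  have := cross_core (n := n) (J := 1) (B := B) hlt (C.Y (v - b - C.W e)) (C.Th e) (fun y t =>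
      a + 2 ^ b * ((C.E (v - b) y + t + κ) % 2 ^ (v - b))) (fun y _ =>
        cross_block hS hm hq hb hv hT hB)
  simpa using this

/-- any P type zone against the zone above a `PT` region -/
theorem cross_RS (hS : PRep X P f l g S) (hlt : ∀ s ∈ S, s < 2 ^ m) (hm : f + l ≤ m)
    (hq : q + C.W e ≤ l) (hb : b = f + q) (hv : m ≤ v) (hT : ∀ t ∈ C.T e, t < 2 ^ C.W e)
    (hB : QPB X P (C.W e) l q B (C.T e)) :
    (pmod m n S (zRS C e b v a κ κ₂).S).card ≤ (C.Y (v - (b + C.W e))).card * (2 * B) := by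
  classical
  rw [zRS_S]
  refine cross_core (n := n) (J := 2) (B := B) hlt (C.Y (v - (b + C.W e))) (C.T e) (fun y t =>
      a + 2 ^ b * ((t + κ) % 2 ^ C.W e) +
        2 ^ (b + C.W e) * ((C.E (v - (b + C.W e)) y + κ₂) % 2 ^ (v - (b + C.W e)))) (fun y _ => ?_)
  exact cross_blockS hS hm hq hb hv hT hB

end general

/-! ### `PT` against a block at the same place -/

/-- number of pairs of block digits with prescribed sum -/
def SumB (W : ℕ) (A A' : Finset ℕ) (r : ℕ) : Prop :=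
  ∀ s, ((A ×ˢ A').filter (fun t => t.1 + t.2 ≡ s [MOD 2 ^ W])).card ≤ r

section same

variable {C : Codes} {p e f b v a a' κ κ' κ₂ n r : ℕ}

open Classical in
/-- the block digits of a consistent pair have a prescribed sum -/
lemma same_core (hP : PCode (C.X p) (C.P p)) (hfb : f ≤ b) {Xs : Finset ℕ}
    (G : ℕ → ℕ) (g : ℕ)
    (hG : ∀ t ∈ Xs, G t ≡ g + 2 ^ b * t [MOD 2 ^ (b + C.W e)])
    (hr : SumB (C.W e) (C.T e) Xs r) :
    (Xs.filter (fun t => ∃ s ∈ (zreg C (.PT p e f b) a κ).S,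
      s + G t ≡ n [MOD 2 ^ (b + C.W e)])).card ≤ 1 * r := by
  classical
  rw [one_mul]
  set A := Xs.filter (fun t => ∃ s ∈ (zreg C (.PT p e f b) a κ).S,
      s + G t ≡ n [MOD 2 ^ (b + C.W e)]) with hA
  -- the variables
  have hrep : ∀ t ∈ A, ∃ x ∈ C.X p (b - f), ∃ τ ∈ C.T e,
      (a + 2 ^ f * (C.P p (b + C.W e - f) x + 2 ^ (b - f) * τ + κ)) + (g + 2 ^ b * t) ≡ n
        [MOD 2 ^ (b + C.W e)] := by
    intro t ht
    rw [hA, mem_filter] at ht
    obtain ⟨ht, s, hs, he⟩ := ht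
    unfold zreg at hs
    simp only [mem_image, Reg.V, Reg.bot, Reg.c, Reg.top] at hs
    obtain ⟨q, hq, rfl⟩ := hs
    rw [mem_pairs] at hq
    refine ⟨_, hq.1, _, hq.2, ?_⟩
    have e1 : 2 ^ f * ((C.P p (b + C.W e - f) (Nat.unpair q).1 + 2 ^ (b - f) * (Nat.unpair q).2 + κ) %
        2 ^ (b + C.W e - f)) ≡ 2 ^ f * (C.P p (b + C.W e - f) (Nat.unpair q).1 +
          2 ^ (b - f) * (Nat.unpair q).2 + κ) [MOD 2 ^ (b + C.W e)] :=
      mul_mod_pow_modEq.of_dvd (pow_dvd_pow 2 (by omega))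
    exact ((e1.add_left a).symm.add (hG t ht).symm).trans he
  rcases A.eq_empty_or_nonempty with h0 | ⟨t0, ht0⟩
  · rw [h0]; simp
  obtain ⟨x0, hx0, τ0, hτ0, e0⟩ := hrep t0 ht0
  -- all `x` are equal
  have hx : ∀ t ∈ A, ∃ τ ∈ C.T e,
      (a + 2 ^ f * (C.P p (b + C.W e - f) x0 + 2 ^ (b - f) * τ + κ)) + (g + 2 ^ b * t) ≡ n
        [MOD 2 ^ (b + C.W e)] := by
    intro t ht
    obtain ⟨x, hx, τ, hτ, e1⟩ := hrep t ht
    have e2 := (e1.trans e0.symm).of_dvd (pow_dvd_pow 2 (show b ≤ b + C.W e by omega))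
    have hz : ∀ u, 2 ^ b * u ≡ 0 [MOD 2 ^ b] := fun u =>
      Nat.modEq_zero_iff_dvd.mpr (Dvd.intro _ rfl)
    have hbb : 2 ^ b = 2 ^ f * 2 ^ (b - f) := by rw [← pow_add]; congr 1; omega
    have e3 : ∀ x τ t, (a + 2 ^ f * (C.P p (b + C.W e - f) x + 2 ^ (b - f) * τ + κ)) +
        (g + 2 ^ b * t) = 2 ^ f * C.P p (b + C.W e - f) x + (a + 2 ^ f * κ + g) + 2 ^ b * (τ + t) := by
      intro x τ t
      rw [hbb]; ring
    rw [e3, e3] at e2
    have e4 : 2 ^ f * C.P p (b + C.W e - f) x + (a + 2 ^ f * κ + g) ≡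
        2 ^ f * C.P p (b + C.W e - f) x0 + (a + 2 ^ f * κ + g) [MOD 2 ^ b] := by
      have a1 := (Nat.ModEq.refl (2 ^ f * C.P p (b + C.W e - f) x + (a + 2 ^ f * κ + g))
        (n := 2 ^ b)).add (hz (τ + t))
      have a2 := (Nat.ModEq.refl (2 ^ f * C.P p (b + C.W e - f) x0 + (a + 2 ^ f * κ + g))
        (n := 2 ^ b)).add (hz (τ0 + t0))
      rw [add_zero] at a1 a2
      exact a1.symm.trans (e2.trans a2)
    have e5 := two_pow_dvd_cancel (Nat.ModEq.add_right_cancel' _ e4) hfb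
    have e6 : C.P p (b - f) x ≡ C.P p (b - f) x0 [MOD 2 ^ (b - f)] := by
      rw [← hP.res (b + C.W e - f) (b - f) (b - f) (by omega) x hx,
        ← hP.res (b + C.W e - f) (b - f) (b - f) (by omega) x0 hx0]
      exact (Nat.mod_modEq _ _).trans (e5.trans (Nat.mod_modEq _ _).symm)
    have e7 := hP.inj _ x hx x0 hx0 e6
    rw [e7] at e1
    exact ⟨τ, hτ, e1⟩
  choose! τ hτ hτe using hx
  refine (Finset.card_le_card_of_injOn (fun t => (τ t, t)) (fun t ht => ?_) ?_).trans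
    (hr (τ0 + t0))
  · rw [mem_coe, mem_filter, mem_product]
    refine ⟨⟨hτ t ht, (mem_filter.mp ht).1⟩, ?_⟩
    have e2 := (hτe t ht).trans e0.symm
    have hbb : 2 ^ b = 2 ^ f * 2 ^ (b - f) := by rw [← pow_add]; congr 1; omega
    have e3 : ∀ τ t, (a + 2 ^ f * (C.P p (b + C.W e - f) x0 + 2 ^ (b - f) * τ + κ)) +
        (g + 2 ^ b * t) = 2 ^ b * (τ + t) +
          (2 ^ f * C.P p (b + C.W e - f) x0 + (a + 2 ^ f * κ + g)) := by
      intro τ t
      rw [hbb]; ring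
    rw [e3, e3] at e2
    have e4 := two_pow_dvd_cancel (Nat.ModEq.add_right_cancel' _ e2) (by omega)
    rwa [Nat.add_sub_cancel_left] at e4
  · intro t ht s hs he
    simp only [Prod.mk.injEq] at he
    exact he.2

/-- `PT` against `RT`, same block -/
theorem same_RT (hP : PCode (C.X p) (C.P p)) (hfb : f ≤ b) (hbv : b + C.W e ≤ v) (ha : a < 2 ^ f)
    (hr : SumB (C.W e) (C.T e) (C.T e) r) :
    (pmod (b + C.W e) n (zreg C (.PT p e f b) a κ).S (zreg C (.RT e b v) a' κ').S).card ≤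
      (C.Y (v - b - C.W e)).card * r := by
  classical
  rw [zRT_S]
  have hok : ∀ s ∈ (zreg C (.PT p e f b) a κ).S, s < 2 ^ (b + C.W e) :=
    zreg_ok C (.PT p e f b) (by simp only [Reg.bot, Reg.top]; omega) ha
  have := cross_core (n := n) (J := 1) (B := r) hok (C.Y (v - b - C.W e)) (C.T e) (fun y t =>
      a' + 2 ^ b * ((C.E (v - b) y + t + κ') % 2 ^ (v - b))) (fun y _ => ?_)
  · simpa using this
  · refine same_core (C := C) hP hfb _ (a' + 2 ^ b * (C.E (v - b) y + κ')) (fun t _ => ?_) hr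
    have h2 : 2 ^ b * ((C.E (v - b) y + t + κ') % 2 ^ (v - b)) ≡ 2 ^ b * (C.E (v - b) y + t + κ')
        [MOD 2 ^ (b + C.W e)] := mul_mod_pow_modEq.of_dvd (pow_dvd_pow 2 (by omega))
    have e : a' + 2 ^ b * (C.E (v - b) y + κ') + 2 ^ b * t =
        a' + 2 ^ b * (C.E (v - b) y + t + κ') := by ring
    rw [e]
    exact h2.add_left _

/-- `PT` against `RTh`, same block -/
theorem same_RTh (hP : PCode (C.X p) (C.P p)) (hfb : f ≤ b) (hbv : b + C.W e ≤ v) (ha : a < 2 ^ f)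
    (hr : SumB (C.W e) (C.T e) (C.Th e) r) :
    (pmod (b + C.W e) n (zreg C (.PT p e f b) a κ).S (zreg C (.RTh e b v) a' κ').S).card ≤
      (C.Y (v - b - C.W e)).card * r := by
  classical
  rw [zRTh_S]
  have hok : ∀ s ∈ (zreg C (.PT p e f b) a κ).S, s < 2 ^ (b + C.W e) :=
    zreg_ok C (.PT p e f b) (by simp only [Reg.bot, Reg.top]; omega) ha
  have := cross_core (n := n) (J := 1) (B := r) hok (C.Y (v - b - C.W e)) (C.Th e) (fun y t =>
      a' + 2 ^ b * ((C.E (v - b) y + t + κ') % 2 ^ (v - b))) (fun y _ => ?_)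
  · simpa using this
  · refine same_core (C := C) hP hfb _ (a' + 2 ^ b * (C.E (v - b) y + κ')) (fun t _ => ?_) hr
    have h2 : 2 ^ b * ((C.E (v - b) y + t + κ') % 2 ^ (v - b)) ≡ 2 ^ b * (C.E (v - b) y + t + κ')
        [MOD 2 ^ (b + C.W e)] := mul_mod_pow_modEq.of_dvd (pow_dvd_pow 2 (by omega))
    have e : a' + 2 ^ b * (C.E (v - b) y + κ') + 2 ^ b * t =
        a' + 2 ^ b * (C.E (v - b) y + t + κ') := by ring
    rw [e]
    exact h2.add_left _

/-- `PT` against the zone above a `PT` region, same block -/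
theorem same_RS (hP : PCode (C.X p) (C.P p)) (hfb : f ≤ b) (ha : a < 2 ^ f)
    (hr : SumB (C.W e) (C.T e) (C.T e) r) :
    (pmod (b + C.W e) n (zreg C (.PT p e f b) a κ).S (zRS C e b v a' κ' κ₂).S).card ≤
      (C.Y (v - (b + C.W e))).card * r := by
  classical
  rw [zRS_S]
  have hok : ∀ s ∈ (zreg C (.PT p e f b) a κ).S, s < 2 ^ (b + C.W e) :=
    zreg_ok C (.PT p e f b) (by simp only [Reg.bot, Reg.top]; omega) ha
  have := cross_core (n := n) (J := 1) (B := r) hok (C.Y (v - (b + C.W e))) (C.T e) (fun y t =>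
      a' + 2 ^ b * ((t + κ') % 2 ^ C.W e) +
        2 ^ (b + C.W e) * ((C.E (v - (b + C.W e)) y + κ₂) % 2 ^ (v - (b + C.W e)))) (fun y _ => ?_)
  · simpa using this
  · refine same_core (C := C) hP hfb _ (a' + 2 ^ b * κ') (fun t _ => ?_) hr
    have h1 : 2 ^ b * ((t + κ') % 2 ^ C.W e) ≡ 2 ^ b * (t + κ') [MOD 2 ^ (b + C.W e)] :=
      mul_mod_pow_modEq
    have h2 : 2 ^ (b + C.W e) * ((C.E (v - (b + C.W e)) y + κ₂) % 2 ^ (v - (b + C.W e))) ≡ 0
        [MOD 2 ^ (b + C.W e)] := Nat.modEq_zero_iff_dvd.mpr (Dvd.intro _ rfl)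
    have h3 := (h1.add_left a').add h2
    rw [add_zero] at h3
    have e : a' + 2 ^ b * κ' + 2 ^ b * t = a' + 2 ^ b * (t + κ') := by ring
    rw [e]
    exact h3

end same

end Pool.Agent.Helper5.ETP
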