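import Mathlib
import Pool.Agent.Helper5.ETP.CutP

/-!
# E-T (MP_12a1af_nt), project T*: the zones of `P` type, all counts in powers of two
-/

set_option autoImplicit false

open Finset

namespace Pool.Agent.Helper5.ETP

open Pool.Agent.ETS

/-- zones of `P` type: bottom `f`, code `p`, `x` part up to `b`, block of length `w` -/
inductive PZ (C : Codes) (p f b : ℕ) : ℕ → Zone → Prop
  | P (a κ : ℕ) (ha : a < 2 ^ f) : PZ C p f b 0 (zreg C (.P p f b) a κ)
  | PT (e a κ : ℕ) (ha : a < 2 ^ f) (hT : (C.T e).card ≤ 2 ^ (C.W e / 2)) :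
      PZ C p f b (C.W e) (zreg C (.PT p e f b) a κ)

section

variable {C : Codes} {p f b w K K' n j k r₀ g E : ℕ} {Z Z' : Zone}

lemma PZ.top (h : PZ C p f b w Z) : Z.top = b + w := by
  cases h with
  | P a κ ha => rfl
  | PT e a κ ha hT => rfl

lemma PZ.ok (h : PZ C p f b w Z) (hfb : f ≤ b) : Zone.Ok Z := by
  cases h with
  | P a κ ha => exact zreg_ok C _ hfb ha
  | PT e a κ ha hT => exact zreg_ok C _ (show f ≤ b + C.W e by omega) ha

lemma PZ.low (h : PZ C p f b w Z) : ∃ a, Zone.Low Z f a := by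
  cases h with
  | P a κ ha => exact ⟨a, zreg_low C _ ha⟩
  | PT e a κ ha hT => exact ⟨a, zreg_low C _ ha⟩

/-- the variables of a zone of `P` type -/
lemma PZ.rep (hP : PCode (C.X p) (C.P p)) (h : PZ C p f b w Z) (hfb : f ≤ b) :
    ∃ g, PRep (C.X p) (C.P p) f (b - f) g Z.S := by
  cases h with
  | P a κ ha => exact ⟨_, zP_rep C⟩
  | PT e a κ ha hT => exact ⟨_, zPT_rep C hP hfb⟩

/-- (CUT), known digits -/
lemma PZ.cutB (hP : PCode (C.X p) (C.P p)) (h : PZ C p f b w Z) (hfb : f ≤ b)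
    (hcb : CutBd (C.X p) (C.P p) (b - f) E)
    (hok' : Zone.Ok Z') (hlow : Zone.Low Z' (f + j) r₀) (hk : k ≤ b - f)
    (hbK : b + w ≤ K) (hK' : Z'.top ≤ f + k) (hj : f + j ≤ Z'.top) :
    (zcons K (f + k) n Z Z').card ≤
      8 * (2 ^ E * (1 + (2 ^ ((b - f + 1) / 2 - j) + 1) / 2 ^ (b - f - k))) := by
  cases h with
  | P a κ ha =>
    have := cut_P_FB (κ := κ) (n := n) C hP hcb hfb hok' hlow ha hk hbK hK' hj
    omega
  | PT e a κ ha hT => exact cut_PT_FB C hP hcb hfb hok' hlow ha hk hbK hK' hj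

/-- (CUT), same anchor -/
lemma PZ.cutA (hP : PCode (C.X p) (C.P p)) (h : PZ C p f b w Z) (hfb : f ≤ b)
    (hcb : CutBd (C.X p) (C.P p) (b - f) E)
    (hok' : Zone.Ok Z') (hrep : PRep (C.X p) (C.P p) f j g Z'.S) (hk : k ≤ b - f)
    (hbK : b + w ≤ K) (hK' : Z'.top ≤ f + k) (hj : f + j ≤ Z'.top) :
    (zcons K (f + k) n Z Z').card ≤
      8 * (2 ^ E * (1 + 2 ^ ((b - f - j) / 2 + 4) / 2 ^ (b - f - k))) := by
  cases h with
  | P a κ ha =>
    have := cut_P_FA (κ := κ) (n := n) C hP hcb hfb hok' hrep ha hk hbK hK' hj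
    omega
  | PT e a κ ha hT => exact cut_PT_FA C hP hcb hfb hok' hrep ha hk hbK hK' hj

/-- (CUT), no information -/
lemma PZ.cutAll (hP : PCode (C.X p) (C.P p)) (h : PZ C p f b w Z) (hfb : f ≤ b)
    (hcb : CutBd (C.X p) (C.P p) (b - f) E)
    (hok' : Zone.Ok Z') (hk : k ≤ b - f)
    (hbK : b + w ≤ K) (hK' : Z'.top ≤ f + k) :
    (zcons K (f + k) n Z Z').card ≤
      16 * (2 ^ E * (1 + (2 ^ ((b - f + 1) / 2) + 1) / 2 ^ (b - f - k))) := by
  cases h with
  | P a κ ha =>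
    have := cut_P_all (κ := κ) (n := n) C hP hcb hfb hok' ha hk hbK hK'
    omega
  | PT e a κ ha hT => exact cut_PT_all C hP hcb hfb hok' ha hk hbK hK'

/-- (LOW), known digits -/
lemma PZ.lowB (hP : PCode (C.X p) (C.P p)) (h : PZ C p f b w Z)
    (hok' : Zone.Ok Z') (hlow : Zone.Low Z' (f + k) r₀) (hk : f + k ≤ b)
    (hbK : b + w ≤ K) (hK' : Z'.top ≤ K') (h2 : f + k ≤ Z'.top) (htop : Z'.top ≤ b + w) :
    (zcons K K' n Z Z').card ≤ (2 ^ ((b - f + 1) / 2 - k) + 1) * 2 ^ (w / 2) := by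
  cases h with
  | P a κ ha =>
    have := low_P (κ := κ) (n := n) (a := a) C hP hok' hlow hk hbK hK' h2 htop
    simpa using this
  | PT e a κ ha hT =>
    exact (low_PT C hP hok' hlow hk hbK hK' h2 htop).trans (Nat.mul_le_mul_left _ hT)

/-- number of variables of a code -/
lemma card_X_le {X : ℕ → Finset ℕ} {P : ℕ → ℕ → ℕ} (hP : PCode X P) (l : ℕ) :
    (X l).card ≤ 4 * 2 ^ ((l + 1) / 2) := by
  classical
  have h1 := hP.cls l 0 1
  have h3 := hP.cls l 0 3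
  have hsub : X l ⊆ (X l).filter (fun x => x % 2 ^ (0 + 2) = 1) ∪
      (X l).filter (fun x => x % 2 ^ (0 + 2) = 3) := by
    intro x hx
    rw [mem_union, mem_filter, mem_filter]
    have hodd := hP.odd l x hx
    have : x % 2 ^ (0 + 2) = 1 ∨ x % 2 ^ (0 + 2) = 3 := by norm_num; omega
    rcases this with h | h
    · exact Or.inl ⟨hx, h⟩
    · exact Or.inr ⟨hx, h⟩
  have h4 := (card_le_card hsub).trans (card_union_le _ _)
  have h5 : 0 < 2 ^ ((l + 1) / 2) := by positivity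
  rw [Nat.sub_zero] at h1 h3
  omega

lemma PZ.card (hP : PCode (C.X p) (C.P p)) (h : PZ C p f b w Z) :
    Z.S.card ≤ 4 * 2 ^ ((b - f + 1) / 2) * 2 ^ (w / 2) := by
  cases h with
  | P a κ ha =>
    have h1 := (zreg_card_le C (.P p f b) a κ).trans (card_X_le hP (b - f))
    simpa using h1
  | PT e a κ ha hT =>
    refine (zreg_card_le C (.PT p e f b) a κ).trans ?_
    simp only [Reg.V]
    rw [card_pairs]
    exact Nat.mul_le_mul (card_X_le hP (b - f)) hT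

/-- trivial bound -/
lemma PZ.triv (hP : PCode (C.X p) (C.P p)) (h : PZ C p f b w Z)
    (hok' : Zone.Ok Z') (hbK : b + w ≤ K) (hK' : Z'.top ≤ K') (htop : Z'.top ≤ b + w) :
    (zcons K K' n Z Z').card ≤ 4 * 2 ^ ((b - f + 1) / 2) * 2 ^ (w / 2) := by
  have ht := h.top
  exact (zcons_le_left hok' (by omega) hK' (by omega)).trans (h.card hP)

/-- sums of contents for `PT` zones against a `P` type zone with the same bottom -/
lemma fst_P_core (C : Codes) {K K' κ a : ℕ} (hP : PCode (C.X p) (C.P p)) {l w : ℕ}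
    (Cn : ℕ → ℕ → ℕ) (T : Finset ℕ)
    (hCn : ∀ x ∈ C.X p l, ∀ t, Cn x t ≡ C.P p l x [MOD 2 ^ l])
    (htop : Z.top = f + (l + w))
    (hZ : ∀ s ∈ Z.S, ∃ x ∈ C.X p l, ∃ t ∈ T, s = a + 2 ^ f * ((Cn x t + κ) % 2 ^ (l + w)))
    (hok' : Zone.Ok Z') (hrep : PRep (C.X p) (C.P p) f j g Z'.S) (hj : j ≤ l)
    (hbK : Z.top ≤ K) (hK' : Z'.top ≤ K') (hjt : f + j ≤ Z'.top) (ht : Z'.top ≤ Z.top) :
    (zcons K K' n Z Z').card ≤ 2 ^ ((l - j) / 2 + 4) * T.card := by
  classical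
  set F := (C.X p l).filter (fun x => ∃ x' ∈ C.X p j,
    2 ^ f * C.P p l x + 2 ^ f * C.P p j x' + (a + 2 ^ f * κ + g) ≡ n [MOD 2 ^ (f + j)]) with hF
  have h1 : (zcons K K' n Z Z').card ≤ (F ×ˢ T).card := by
    refine (zcons_le_of_fst hok' hbK hK' ht ((F ×ˢ T).image
      (fun q => a + 2 ^ f * ((Cn q.1 q.2 + κ) % 2 ^ (l + w)))) ?_).trans card_image_le
    intro s hs
    obtain ⟨x, hx, t, ht, he⟩ := hZ _ (mem_zcons.mp hs).1.1
    rw [mem_image]
    refine ⟨(x, t), ?_, he.symm⟩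
    rw [mem_product, hF, mem_filter]
    refine ⟨⟨hx, ?_⟩, ht⟩
    obtain ⟨x', hx', e1⟩ := hrep s.2 (mem_zcons.mp hs).1.2
    refine ⟨x', hx', ?_⟩
    have h5 := zcons_modEq hbK hK' hs (show f + j ≤ Z.top by omega) hjt
    have h6 : 2 ^ f * ((Cn x t + κ) % 2 ^ (l + w)) ≡
        2 ^ f * (C.P p l x + κ) [MOD 2 ^ (f + j)] := by
      have a0 : 2 ^ f * ((Cn x t + κ) % 2 ^ (l + w)) ≡ 2 ^ f * (Cn x t + κ) [MOD 2 ^ (f + j)] :=
        mul_mod_pow_modEq.of_dvd (pow_dvd_pow 2 (by omega))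
      refine a0.trans ?_
      rw [pow_add 2 f j]
      refine Nat.ModEq.mul_left' _ ?_
      exact ((hCn x hx t).of_dvd (pow_dvd_pow 2 hj)).add_right κ
    rw [he] at h5
    refine Nat.ModEq.trans ?_ (((h6.add_left a).add e1).symm.trans h5)
    have e2 : 2 ^ f * C.P p l x + 2 ^ f * C.P p j x' + (a + 2 ^ f * κ + g) =
      a + 2 ^ f * (C.P p l x + κ) + (g + 2 ^ f * C.P p j x') := by ring
    rw [e2]
  refine h1.trans ?_
  rw [card_product]
  refine Nat.mul_le_mul_right _ ?_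
  rcases F.eq_empty_or_nonempty with h0 | ⟨x₀, hx₀⟩
  · rw [h0]; simp
  obtain ⟨hx₀X, x₀', hx₀', e₀⟩ := mem_filter.mp hx₀
  obtain ⟨G, hG⟩ := zP_fst (c := 2 ^ f * C.P p l x₀ + 2 ^ f * C.P p j x₀') hP
    hj F (filter_subset _ _) (by
      intro x hx
      obtain ⟨_, x', hx', e⟩ := mem_filter.mp hx
      exact ⟨x', hx', Nat.ModEq.add_right_cancel' _ (e.trans e₀.symm)⟩)
  refine (card_le_card ?_).trans (hP.fst l j hj G)
  intro x hx
  rw [mem_filter]
  exact ⟨(mem_filter.mp hx).1, hG x hx⟩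

/-- (LOW), same anchor -/
lemma PZ.lowA (hP : PCode (C.X p) (C.P p)) (h : PZ C p f b w Z) (hfb : f ≤ b)
    (hok' : Zone.Ok Z') (hrep : PRep (C.X p) (C.P p) f j g Z'.S) (hj : j ≤ b - f)
    (hbK : b + w ≤ K) (hK' : Z'.top ≤ K') (hjt : f + j ≤ Z'.top) (ht : Z'.top ≤ b + w) :
    (zcons K K' n Z Z').card ≤ 2 ^ ((b - f - j) / 2 + 4) * 2 ^ (w / 2) := by
  cases h with
  | P a κ ha =>
    have := fst_P_core (n := n) (Z := zreg C (.P p f b) a κ) (w := 0) (κ := κ) (a := a) C hP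
      (fun x _ => C.P p (b - f) x) ({0} : Finset ℕ)
      (fun x _ t => Nat.ModEq.refl _) (show b = f + (b - f + 0) by omega) (by
        intro s hs
        unfold zreg at hs
        simp only [mem_image, Reg.V, Reg.bot, Reg.c, Reg.top] at hs
        obtain ⟨x, hx, he⟩ := hs
        exact ⟨x, hx, 0, mem_singleton_self _, by rw [add_zero]; exact he.symm⟩)
      hok' hrep hj hbK hK' hjt ht
    simpa using this
  | PT e a κ ha hT =>
    have hlW : b + C.W e - f = (b - f) + C.W e := by omega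
    have := fst_P_core (n := n) (Z := zreg C (.PT p e f b) a κ) (w := C.W e) (κ := κ) (a := a)
      C hP (fun x t => C.P p (b + C.W e - f) x + 2 ^ (b - f) * t) (C.T e)
      (fun x hx t => by
        have a1 : C.P p (b + C.W e - f) x ≡ C.P p (b - f) x [MOD 2 ^ (b - f)] := by
          rw [← hP.res (b + C.W e - f) (b - f) (b - f) (by omega) x hx]
          exact (Nat.mod_modEq _ _).symm
        have a2 : 2 ^ (b - f) * t ≡ 0 [MOD 2 ^ (b - f)] :=
          Nat.modEq_zero_iff_dvd.mpr (Dvd.intro _ rfl)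
        have a3 := a1.add a2
        rw [add_zero] at a3
        exact a3)
      (show b + C.W e = f + (b - f + C.W e) by omega) (by
        intro s hs
        unfold zreg at hs
        simp only [mem_image, Reg.V, Reg.bot, Reg.c, Reg.top] at hs
        obtain ⟨q, hq, he⟩ := hs
        rw [mem_pairs] at hq
        exact ⟨_, hq.1, _, hq.2, by rw [← hlW]; exact he.symm⟩)
      hok' hrep hj hbK hK' hjt ht
    exact this.trans (Nat.mul_le_mul_left _ hT)

end

/-! ### bounds by one power of two -/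

lemma one_add_div_le (a s : ℕ) : 1 + (2 ^ a + 1) / 2 ^ s ≤ 2 ^ (a + 1 - s + 1) := by
  have h1 : (2 ^ a + 1) / 2 ^ s ≤ 2 ^ (a + 1) / 2 ^ s := by
    refine Nat.div_le_div_right ?_
    have : 0 < 2 ^ a := by positivity
    rw [pow_succ]; omega
  have h2 : 2 ^ (a + 1) / 2 ^ s ≤ 2 ^ (a + 1 - s) := by
    rcases le_or_gt s (a + 1) with h | h
    · rw [Nat.pow_div h (by norm_num)]
    · rw [Nat.div_eq_of_lt (Nat.pow_lt_pow_right (by norm_num) h)]
      positivity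
  have h3 : 0 < 2 ^ (a + 1 - s) := by positivity
  rw [pow_succ]
  omega

lemma one_add_div_le' (a s : ℕ) : 1 + 2 ^ a / 2 ^ s ≤ 2 ^ (a - s + 1) := by
  have h2 : 2 ^ a / 2 ^ s ≤ 2 ^ (a - s) := by
    rcases le_or_gt s a with h | h
    · rw [Nat.pow_div h (by norm_num)]
    · rw [Nat.div_eq_of_lt (Nat.pow_lt_pow_right (by norm_num) h)]
      positivity
  have h3 : 0 < 2 ^ (a - s) := by positivity
  rw [pow_succ]
  omega

/-- `8 * (2 ^ E * (1 + (2 ^ a + 1) / 2 ^ s))` as a power of two -/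
lemma eight_le (E a s : ℕ) :
    8 * (2 ^ E * (1 + (2 ^ a + 1) / 2 ^ s)) ≤ 2 ^ (E + 4 + (a + 1 - s)) := by
  calc 8 * (2 ^ E * (1 + (2 ^ a + 1) / 2 ^ s)) ≤ 8 * (2 ^ E * 2 ^ (a + 1 - s + 1)) :=
        Nat.mul_le_mul_left _ (Nat.mul_le_mul_left _ (one_add_div_le a s))
    _ = 2 ^ (E + 4 + (a + 1 - s)) := by
        have : (8 : ℕ) = 2 ^ 3 := by norm_num
        rw [this, ← pow_add, ← pow_add]
        congr 1
        omega

lemma eight_le' (E a s : ℕ) :
    8 * (2 ^ E * (1 + 2 ^ a / 2 ^ s)) ≤ 2 ^ (E + 4 + (a - s)) := by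
  calc 8 * (2 ^ E * (1 + 2 ^ a / 2 ^ s)) ≤ 8 * (2 ^ E * 2 ^ (a - s + 1)) :=
        Nat.mul_le_mul_left _ (Nat.mul_le_mul_left _ (one_add_div_le' a s))
    _ = 2 ^ (E + 4 + (a - s)) := by
        have : (8 : ℕ) = 2 ^ 3 := by norm_num
        rw [this, ← pow_add, ← pow_add]
        congr 1
        omega

end Pool.Agent.Helper5.ETP
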