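import Mathlib
import Pool.Agent.ETS.FarDefs
import Pool.Agent.Helper5.ETP.PZ

/-!
# E-T (MP_12a1af_nt), project T*: a zone of `P` type which contains `K'`, counts and numbers
-/

set_option autoImplicit false

open Finset

namespace Pool.Agent.Helper5.ETP

open Pool.Agent.ETS
open Pool.Agent.Helper29.ETK (CC gth)
open Pool.Agent.ETP (isPT phiV)

/-- from a power of two to the far bound -/
lemma farOK_pow {C : Codes} {c K K' m : ℕ} {r0 r1 r0' r1' : Reg} {y : ℝ}
    (hB : ∀ n Z Z', ZoneOf C r0 r1 Z → ZoneOf C r0' r1' Z' → (zcons K K' n Z Z').card ≤ 2 ^ m)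
    (hφ : phiV K K' (r1.top C) (r1'.top C) = (2:ℝ) ^ y)
    (h : (m : ℝ) + y ≤ -((gth c K / (8 * CC c) : ℕ) : ℝ)) : FarOK C c K K' r0 r1 r0' r1' :=
  ⟨2 ^ m, hB, fin_le (x := (m : ℝ)) (by push_cast; rw [Real.rpow_natCast]) hφ h⟩

/-- numbers for the cut zones -/
lemma num_cut {C g K K' al al' A E m w X : ℕ} (hC : 20 ≤ C) (hg : K' + g ≤ K) (h1 : K' ≤ al)
    (h3 : al' ≤ K') (hA : al + 5 * A ≤ K) (hl : al ≤ K' + C * A) (hE : 64 * C * E ≤ A)
    (hw : 100 * C * (w + 20) ≤ A) (hX : (10 * C + 9) * X ≤ 10 * C * (K - K'))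
    (hm : 2 * m ≤ 2 * E + 12 + w ∨
      2 * m + al + al' ≤ 2 * E + 20 + 2 * w + (X + w) + 2 * K' ∨
      (2 * m ≤ 5 + 2 * A + w ∧ al ≤ K' + 2 * A + w)) :
    (m : ℝ) + (-((K:ℝ) - al) / 2 - ((K':ℝ) - al') / 2) ≤ -((g / (8 * C) : ℕ) : ℝ) := by
  have hCr : (20:ℝ) ≤ C := by exact_mod_cast hC
  have hCpos : (0:ℝ) < C := by linarith
  obtain ⟨q, hq⟩ : ∃ q : ℕ, q = g / (8 * C) := ⟨_, rfl⟩
  rw [← hq]
  have hq1 : 8 * (C:ℝ) * q ≤ (K:ℝ) - K' := by
    have h2 : q * (8 * C) ≤ g := by rw [hq]; exact Nat.div_mul_le_self _ _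
    have h4 : q * (8 * C) + K' ≤ K := by omega
    have h5 : ((q * (8 * C) + K' : ℕ) : ℝ) ≤ K := by exact_mod_cast h4
    push_cast at h5
    linarith
  have e1 : (K':ℝ) ≤ al := by exact_mod_cast h1
  have e3 : (al':ℝ) ≤ K' := by exact_mod_cast h3
  have eA : (al:ℝ) + 5 * A ≤ K := by exact_mod_cast hA
  have el : (al:ℝ) ≤ K' + C * A := by exact_mod_cast hl
  have eE : 64 * (C:ℝ) * E ≤ A := by exact_mod_cast hE
  have ew : 100 * (C:ℝ) * (w + 20) ≤ A := by exact_mod_cast hw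
  have hKK : K' ≤ K := by omega
  have eX : (10 * (C:ℝ) + 9) * X ≤ 10 * C * ((K:ℝ) - K') := by
    have : (((10 * C + 9) * X : ℕ) : ℝ) ≤ ((10 * C * (K - K') : ℕ) : ℝ) := by exact_mod_cast hX
    push_cast [Nat.cast_sub hKK] at this
    exact this
  have hA0 : (0:ℝ) ≤ A := Nat.cast_nonneg A
  have hE0 : (0:ℝ) ≤ E := Nat.cast_nonneg E
  have hw0 : (0:ℝ) ≤ w := Nat.cast_nonneg w
  have hX0 : (0:ℝ) ≤ X := Nat.cast_nonneg X
  have hq0 : (0:ℝ) ≤ q := Nat.cast_nonneg q
  have hE1 : 1280 * (E:ℝ) ≤ A := by nlinarith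
  have hw1 : 2000 * ((w:ℝ) + 20) ≤ A := by nlinarith
  rcases hm with hm | hm | ⟨hm, hm'⟩
  · have em : 2 * (m:ℝ) ≤ 2 * E + 12 + w := by exact_mod_cast hm
    have hq2 : (q:ℝ) ≤ ((K:ℝ) - al) / 160 + A / 8 := by
      by_contra hcon
      push Not at hcon
      have hy : 0 ≤ (K:ℝ) - al := by linarith
      nlinarith
    linarith
  · have em : 2 * (m:ℝ) + al + al' ≤ 2 * E + 20 + 2 * w + (X + w) + 2 * K' := by exact_mod_cast hm
    have hD5 : 5 * (A:ℝ) ≤ (K:ℝ) - K' := by linarith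
    -- multiply by C
    have hCX : (C:ℝ) * X ≤ C * ((K:ℝ) - K') - 8 / 10 * ((K:ℝ) - K') := by
      have hD0 : 0 ≤ (K:ℝ) - K' := by linarith
      have h10 : (0:ℝ) < 10 * C + 9 := by linarith
      have h11 : (10 * (C:ℝ) + 9) * (C * X) ≤
          (10 * (C:ℝ) + 9) * (C * ((K:ℝ) - K') - 8 / 10 * ((K:ℝ) - K')) := by
        have h12 : (10 * (C:ℝ) + 9) * (C * X) ≤ C * (10 * C * ((K:ℝ) - K')) := by
          calc (10 * (C:ℝ) + 9) * (C * X) = C * ((10 * (C:ℝ) + 9) * X) := by ring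
            _ ≤ _ := mul_le_mul_of_nonneg_left eX hCpos.le
        refine h12.trans ?_
        have h13 : (10 * (C:ℝ) + 9) * (C * ((K:ℝ) - K') - 8 / 10 * ((K:ℝ) - K')) -
            C * (10 * C * ((K:ℝ) - K')) = ((K:ℝ) - K') * (C - 72 / 10) := by ring
        have h14 : 0 ≤ ((K:ℝ) - K') * (C - 72 / 10) := mul_nonneg hD0 (by linarith)
        linarith
      exact le_of_mul_le_mul_left h11 h10
    have hfin : (C:ℝ) * (2 * E + 20 + 3 * w + X + 2 * q) ≤ C * ((K:ℝ) - K') := by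
      have f1 : (C:ℝ) * (2 * E + 20 + 3 * w + X + 2 * q) =
          2 * (C * E) + 3 * (C * (w + 20)) - 40 * C + C * X + 2 * (C * q) := by ring
      rw [f1]
      nlinarith
    have hfin2 := le_of_mul_le_mul_left hfin hCpos
    linarith
  · have em : 2 * (m:ℝ) ≤ 5 + 2 * A + w := by exact_mod_cast hm
    have em' : (al:ℝ) ≤ K' + 2 * A + w := by exact_mod_cast hm'
    have hq2 : 160 * (q:ℝ) ≤ (K:ℝ) - K' := by nlinarith
    linarith

/-- the data of a zone of `P` type which contains `K'` -/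
structure CutData (c : ℕ) (C : Codes) (K K' : ℕ) (r0 r1 : Reg) (p f b w ws A E : ℕ) : Prop where
  hc : 20 ≤ CC c
  code : PCode (C.X p) (C.P p)
  fb : f ≤ b
  top : r1.top C = b + w
  pz : ∀ Z, ZoneOf C r0 r1 Z → PZ C p f b w Z
  g : K' + gth c K ≤ K
  f1 : f ≤ K'
  k1 : K' ≤ b + w
  A5 : b + w + 5 * A ≤ K
  len : b + w ≤ f + CC c * A
  E64 : 64 * CC c * E ≤ A
  ww : w ≤ ws
  ws : 100 * CC c * (ws + 20) ≤ A
  cut : ∀ l, 2 * A ≤ l → l ≤ CC c * A → CutBd (C.X p) (C.P p) l E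

section

variable {c : ℕ} {C : Codes} {K K' : ℕ} {r0 r1 r0' r1' : Reg} {p f b w ws A E : ℕ}

/-- short zones: the trivial bound -/
lemma CutData.short (D : CutData c C K K' r0 r1 p f b w ws A E) (hs : b - f < 2 * A) {al' : ℕ}
    (ht' : r1'.top C = al') (hal' : al' ≤ K')
    (hZ' : ∀ Z', ZoneOf C r0' r1' Z' → Zone.Ok Z' ∧ Z'.top = al') :
    FarOK C c K K' r0 r1 r0' r1' := by
  have hfb := D.fb
  have hA5 := D.A5
  have hk1 := D.k1
  have hf1 := D.f1
  have hlen := D.len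
  refine farOK_pow (m := 2 + (b - f + 1) / 2 + w / 2) ?_
    (by rw [D.top, ht']; exact phiV_eq_of_cut D.k1 (by omega) hal') ?_
  · intro n Z Z' hZ hZZ'
    obtain ⟨ok', tp'⟩ := hZ' Z' hZZ'
    refine ((D.pz Z hZ).triv D.code ok' (by omega) (by omega) (by omega)).trans (le_of_eq ?_)
    rw [pow_add, pow_add]
    norm_num
  · refine num_cut (A := A) (E := E) (w := ws) (X := 0) D.hc D.g D.k1 hal' D.A5 (by omega)
      D.E64 D.ws (by omega) (Or.inr (Or.inr ⟨?_, ?_⟩))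
    · have := D.ww; omega
    · have := D.ww; omega

/-- **(CUT)**, no information on the low digits -/
theorem CutData.none (D : CutData c C K K' r0 r1 p f b w ws A E) {al' : ℕ}
    (ht' : r1'.top C = al') (hal' : al' ≤ K')
    (hZ' : ∀ Z', ZoneOf C r0' r1' Z' → Zone.Ok Z' ∧ Z'.top = al')
    (hX : (10 * CC c + 9) * (al' - f) ≤ 10 * CC c * (K - K')) :
    FarOK C c K K' r0 r1 r0' r1' := by
  have hfb := D.fb
  have hA5 := D.A5
  have hk1 := D.k1
  have hf1 := D.f1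
  have hlen := D.len
  have hww := D.ww
  rcases lt_or_ge (b - f) (2 * A) with hs | hs
  · exact D.short hs ht' hal' hZ'
  rcases le_or_gt K' b with hKb | hKb
  · -- `K' ≤ b`
    obtain ⟨k, hk⟩ : ∃ k, K' = f + k := ⟨K' - f, by omega⟩
    have hcb := D.cut (b - f) hs (by omega)
    refine farOK_pow (m := E + 5 + ((b - f + 1) / 2 + 1 - (b - f - k))) ?_
      (by rw [D.top, ht']; exact phiV_eq_of_cut D.k1 (by omega) hal') ?_
    · intro n Z Z' hZ hZZ'
      obtain ⟨ok', tp'⟩ := hZ' Z' hZZ'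
      have h1 := (D.pz Z hZ).cutAll (K := K) (n := n) D.code hfb hcb ok'
        (show k ≤ b - f by omega) (by omega) (by omega)
      rw [← hk] at h1
      refine h1.trans ?_
      have h2 := eight_le E ((b - f + 1) / 2) (b - f - k)
      have h3 : 2 ^ (E + 5 + ((b - f + 1) / 2 + 1 - (b - f - k))) =
          2 * 2 ^ (E + 4 + ((b - f + 1) / 2 + 1 - (b - f - k))) := by
        rw [← pow_succ']; congr 1; omega
      rw [h3]
      omega
    · refine num_cut (A := A) (E := E) (w := ws) (X := al' - f) D.hc D.g D.k1 hal' D.A5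
        (by omega) D.E64 D.ws hX ?_
      omega
  · -- the block contains `K'`
    refine farOK_pow (m := 2 + (b - f + 1) / 2 + w / 2) ?_
      (by rw [D.top, ht']; exact phiV_eq_of_cut D.k1 (by omega) hal') ?_
    · intro n Z Z' hZ hZZ'
      obtain ⟨ok', tp'⟩ := hZ' Z' hZZ'
      refine ((D.pz Z hZ).triv D.code ok' (by omega) (by omega) (by omega)).trans (le_of_eq ?_)
      rw [pow_add, pow_add]
      norm_num
    · refine num_cut (A := A) (E := E) (w := ws) (X := al' - f) D.hc D.g D.k1 hal' D.A5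
        (by omega) D.E64 D.ws hX ?_
      omega

/-- **(CUT)**, known digits below `lo'` -/
theorem CutData.low (D : CutData c C K K' r0 r1 p f b w ws A E) {lo' al' X : ℕ}
    (ht' : r1'.top C = al') (hal' : al' ≤ K') (hlo : f ≤ lo') (hle : lo' ≤ al')
    (hZ' : ∀ Z', ZoneOf C r0' r1' Z' → Zone.Ok Z' ∧ Z'.top = al' ∧ ∃ r, Zone.Low Z' lo' r)
    (hblk : b < K' → lo' ≤ b) (hx : al' + f ≤ 2 * lo' + X + ws)
    (hX : (10 * CC c + 9) * X ≤ 10 * CC c * (K - K')) :
    FarOK C c K K' r0 r1 r0' r1' := by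
  have hfb := D.fb
  have hA5 := D.A5
  have hk1 := D.k1
  have hf1 := D.f1
  have hlen := D.len
  have hww := D.ww
  rcases lt_or_ge (b - f) (2 * A) with hs | hs
  · exact D.short hs ht' hal' (fun Z' h => ⟨(hZ' Z' h).1, (hZ' Z' h).2.1⟩)
  obtain ⟨j, hj⟩ : ∃ j, lo' = f + j := ⟨lo' - f, by omega⟩
  rcases le_or_gt K' b with hKb | hKb
  · obtain ⟨k, hk⟩ : ∃ k, K' = f + k := ⟨K' - f, by omega⟩
    have hcb := D.cut (b - f) hs (by omega)
    refine farOK_pow (m := E + 4 + ((b - f + 1) / 2 - j + 1 - (b - f - k))) ?_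
      (by rw [D.top, ht']; exact phiV_eq_of_cut D.k1 (by omega) hal') ?_
    · intro n Z Z' hZ hZZ'
      obtain ⟨ok', tp', r, hr⟩ := hZ' Z' hZZ'
      rw [hj] at hr
      have h1 := (D.pz Z hZ).cutB (K := K) (n := n) D.code hfb hcb ok' hr
        (show k ≤ b - f by omega) (by omega) (by omega) (by omega)
      rw [← hk] at h1
      exact h1.trans (eight_le E ((b - f + 1) / 2 - j) (b - f - k))
    · refine num_cut (A := A) (E := E) (w := ws) (X := X) D.hc D.g D.k1 hal' D.A5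
        (by omega) D.E64 D.ws hX ?_
      omega
  · have hlb := hblk hKb
    refine farOK_pow (m := 1 + ((b - f + 1) / 2 - j) + w / 2) ?_
      (by rw [D.top, ht']; exact phiV_eq_of_cut D.k1 (by omega) hal') ?_
    · intro n Z Z' hZ hZZ'
      obtain ⟨ok', tp', r, hr⟩ := hZ' Z' hZZ'
      rw [hj] at hr
      refine ((D.pz Z hZ).lowB D.code ok' hr (by omega) (by omega) (by omega) (by omega)
        (by omega)).trans ?_
      rw [pow_add]
      refine Nat.mul_le_mul_right _ ?_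
      rw [add_comm 1, pow_succ]
      have : 0 < 2 ^ ((b - f + 1) / 2 - j) := by positivity
      omega
    · refine num_cut (A := A) (E := E) (w := ws) (X := X) D.hc D.g D.k1 hal' D.A5
        (by omega) D.E64 D.ws hX ?_
      omega

/-- **(CUT)**, the same anchor -/
theorem CutData.same (D : CutData c C K K' r0 r1 p f b w ws A E) {j al' : ℕ}
    (ht' : r1'.top C = al') (hal' : al' ≤ K') (h1 : f + j ≤ al') (h2 : al' ≤ f + j + ws)
    (hZ' : ∀ Z', ZoneOf C r0' r1' Z' → Zone.Ok Z' ∧ Z'.top = al' ∧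
      ∃ g, PRep (C.X p) (C.P p) f j g Z'.S)
    (hblk : b < K' → f + j ≤ b) :
    FarOK C c K K' r0 r1 r0' r1' := by
  have hfb := D.fb
  have hA5 := D.A5
  have hk1 := D.k1
  have hf1 := D.f1
  have hlen := D.len
  have hww := D.ww
  rcases lt_or_ge (b - f) (2 * A) with hs | hs
  · exact D.short hs ht' hal' (fun Z' h => ⟨(hZ' Z' h).1, (hZ' Z' h).2.1⟩)
  rcases le_or_gt K' b with hKb | hKb
  · obtain ⟨k, hk⟩ : ∃ k, K' = f + k := ⟨K' - f, by omega⟩
    have hcb := D.cut (b - f) hs (by omega)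
    refine farOK_pow (m := E + 4 + ((b - f - j) / 2 + 4 - (b - f - k))) ?_
      (by rw [D.top, ht']; exact phiV_eq_of_cut D.k1 (by omega) hal') ?_
    · intro n Z Z' hZ hZZ'
      obtain ⟨ok', tp', g, hr⟩ := hZ' Z' hZZ'
      have h1 := (D.pz Z hZ).cutA (K := K) (n := n) D.code hfb hcb ok' hr
        (show k ≤ b - f by omega) (by omega) (by omega) (by omega)
      rw [← hk] at h1
      exact h1.trans (eight_le' E ((b - f - j) / 2 + 4) (b - f - k))
    · refine num_cut (A := A) (E := E) (w := ws) (X := 0) D.hc D.g D.k1 hal' D.A5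
        (by omega) D.E64 D.ws (by omega) ?_
      omega
  · have hlb := hblk hKb
    refine farOK_pow (m := (b - f - j) / 2 + 4 + w / 2) ?_
      (by rw [D.top, ht']; exact phiV_eq_of_cut D.k1 (by omega) hal') ?_
    · intro n Z Z' hZ hZZ'
      obtain ⟨ok', tp', g, hr⟩ := hZ' Z' hZZ'
      refine ((D.pz Z hZ).lowA D.code hfb ok' hr (by omega) (by omega) (by omega) (by omega)
        (by omega)).trans (le_of_eq ?_)
      rw [← pow_add]
    · refine num_cut (A := A) (E := E) (w := ws) (X := 0) D.hc D.g D.k1 hal' D.A5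
        (by omega) D.E64 D.ws (by omega) ?_
      omega

end

end Pool.Agent.Helper5.ETP
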