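import Mathlib
import Pool.Agent.Helper5.ETP.FarP
import Pool.Agent.ETS.FinalA

/-!
# E-T (MP_12a1af_nt), project T*: the field CUTP for the codes of the project
-/

set_option autoImplicit false

open Finset

namespace Pool.Agent.Helper5.ETP

open Pool.Agent.ETS Pool.Agent.Helper83.ET
open Pool.Agent.Helper29.ETK (Kid kid wb ep Wd av ab ag ak CC Hb nb wcomp gth lg epo Gq kk)


variable {c : ℕ} {TK : ℕ → Finset ℕ}

/-- the cut property of the codes -/
theorem pfar_mk (hc : 20 ≤ c) : PFar c (mk (CC c) TK) where
  code := mk_pcode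
  cut := by
    intro p j l hj h1 h2
    have hC := CC_ge hc
    have hC256 : 256 ≤ CC c := le_trans (by norm_num) hC
    have hML := pcode_ML2 hC256 (p := p) (j := j) hj l h1 h2
    refine ⟨?_, ?_⟩
    · intro a k G t ha hk
      have h3 := (hML a ha G k hk t).1.le
      refine le_trans (Finset.card_le_card ?_) (h3.trans ?_)
      · intro x hx
        simp only [Finset.mem_filter, FA] at hx ⊢
        obtain ⟨x1, ⟨x', x2, x3⟩, x4⟩ := hx
        exact ⟨⟨(pcode (CC c) p).X_subset l x1, x', (pcode (CC c) p).X_subset a x2, x3⟩, x4⟩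
      · apply Nat.mul_le_mul_left
        apply Nat.add_le_add_left
        apply Nat.div_le_div_right
        refine le_trans (Finset.card_le_card ?_) (VZ_first l a G ha)
        intro x hx
        simp only [Finset.mem_filter, FA] at hx ⊢
        exact hx
    · intro a k G t ha hk
      have h3 := (hML a ha G k hk t).2.le
      refine le_trans (Finset.card_le_card ?_) (h3.trans ?_)
      · intro x hx
        simp only [Finset.mem_filter, FB] at hx ⊢
        obtain ⟨x1, x3, x4⟩ := hx
        exact ⟨⟨(pcode (CC c) p).X_subset l x1, x3⟩, x4⟩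
      · apply Nat.mul_le_mul_left
        apply Nat.add_le_add_left
        apply Nat.div_le_div_right
        refine le_trans (Finset.card_le_card ?_) (VZ_cls l a G)
        intro x hx
        simp only [Finset.mem_filter, FB] at hx ⊢
        exact hx

/-- **CUTP for the codes of the project.** -/
theorem CUTP_mk {K K' : ℕ} (hyp : CaseHyp c K K') (hw : (winReg c K').Good (mk (CC c) TK)) :
    ∀ d r0 r1 r0' r1', IsDesc c K d r0 r1 → Sec c K' r0' r1' → d.IsP → d.lo < K' →
      K' < d.hi c → FarOK (mk (CC c) TK) c K K' r0 r1 r0' r1' := by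
  intro d r0 r1 r0' r1' hd h' hP h1 h2
  have hc := hyp.c20
  have hCp := Pool.Agent.ETP.CC_pos c
  have hE : 20 ≤ epo c K := by
    have h3 : CC c ^ 64 ≤ K := by
      have := hyp.K1
      have := hyp.g
      omega
    have h4 := Pool.Agent.Helper29.ETK.le_lg (show 10 ≤ c by omega) h3
    unfold epo
    omega
  exact farCUTP hc (pfar_mk hc) (farCodes_mk hc hE) hyp.K1 hyp.g hyp.O hyp.O' hyp.F hw hd h' hP
    h1 h2

end Pool.Agent.Helper5.ETP
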